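import Mathlib
import Pool.Agent.HuaDom91.Key

/-!
The key identity in characteristic 2.
-/

set_option autoImplicit false

namespace Pool.Agent.HuaPerf2

open Pool.Agent.HuaTop84 Pool.Agent.HuaVal Pool.Agent.HuaOne84 Pool.Agent.HuaDom91

variable {A : Type} [AddCommGroup A]

/-- in characteristic two signs do not matter -/
theorem neg2 (h2 : ∀ x : A, x + x = 0) (x : A) : -x = x := by
  rw [neg_eq_iff_add_eq_zero]
  exact h2 x

theorem sub2 (h2 : ∀ x : A, x + x = 0) (x y : A) : x - y = x + y := by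
  rw [sub_eq_add_neg, neg2 h2]

/-- The Hua identity in characteristic two. -/
theorem hua2 (H : HS A) (h2 : ∀ x : A, x + x = 0) {x w : A} (hx : x ≠ 0) (hw : w ≠ 0)
    (hxw : x + w ≠ 0) : H.inv x + H.inv (x + w) = H.inv (x + H.U x (H.inv w)) := by
  rw [← inv_sub H hx hw hxw, sub2 h2]

/-- The expansion of the inversion in characteristic two. -/
theorem taylor2 (H : HS A) (h2 : ∀ x : A, x + x = 0) {w v : A} (hw : w ≠ 0) (hwv : w + v ≠ 0) :
    H.inv (w + v) = H.inv w + H.U (H.inv w) v + H.U (H.inv w) (H.U v (H.inv (w + v))) := by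
  have h := H.inv_add2 w v hw hwv
  rw [sub2 h2] at h
  exact h

/-- The key identity in characteristic two, abstract form. -/
theorem ident2 (H : HS A) (h2 : ∀ x : A, x + x = 0) {f g h η : A} {A1 A2 : A → A}
    (hf : f ≠ 0) (hg : g ≠ 0) (hh : h ≠ 0) (hsum : H.inv f + H.inv g + H.inv h = 0)
    (h1 : ∀ z, H.U h (H.U (H.inv f) z) = A1 z) (h1' : ∀ z, H.U h (H.U (H.inv g) z) = A2 z)
    (hfg : f + g ≠ 0) (mx : f + η ≠ 0) (my : g + η ≠ 0) (mt : h + η ≠ 0)
    {r : A} (hr : r = f + η + H.U (f + η) (H.inv (f + g))) :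
    r ≠ 0 ∧ A1 η + A2 η + η + (r + (h + η)) =
      A1 (H.U η (H.inv (f + η))) + A2 (H.U η (H.inv (g + η))) + H.U (r + h) (H.inv r) := by
  have hxy : f + η + (f + g) = g + η := by
    have h3 := h2 f
    calc f + η + (f + g) = (f + f) + (g + η) := by abel
      _ = g + η := by rw [h3, zero_add]
  have e2 : H.inv (f + η) + H.inv (g + η) = H.inv r := by
    have h3 := hua2 H h2 mx hfg (by rw [hxy]; exact my)
    rw [hxy, ← hr] at h3
    exact h3
  have hr0 : r ≠ 0 := by
    intro h0
    rw [h0, H.inv_zero] at e2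
    apply hfg
    have h3 : H.inv (f + η) = H.inv (g + η) := by
      rw [← neg2 h2 (H.inv (g + η))]
      exact eq_neg_of_add_eq_zero_left e2
    have h4 := inv_inj h3
    have h5 := add_right_cancel h4
    rw [h5]
    exact h2 g
  refine ⟨hr0, ?_⟩
  -- step 1
  have tx := taylor2 H h2 hf mx
  have ty := taylor2 H h2 hg my
  have tt := taylor2 H h2 hh mt
  have hrh : r = h + (r + h) := by
    have h3 := h2 h
    calc r = (h + h) + r := by rw [h3, zero_add]
      _ = h + (r + h) := by abel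
  have tr : H.inv r = H.inv h + H.U (H.inv h) (r + h) +
      H.U (H.inv h) (H.U (r + h) (H.inv r)) := by
    have h3 := taylor2 H h2 hh (v := r + h) (by rw [← hrh]; exact hr0)
    rw [← hrh] at h3
    exact h3
  -- apply `U h`
  have ux := congrArg (H.U h) tx
  have uy := congrArg (H.U h) ty
  have ut := congrArg (H.U h) tt
  have ur := congrArg (H.U h) tr
  simp only [map_add, h1, h1', H.U_inv_right h _ hh] at ux uy ut ur
  have e3 := congrArg (H.U h) e2
  rw [map_add] at e3
  rw [ux, uy, ur] at e3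
  have e4 := congrArg (H.U h) hsum
  rw [map_add, map_add, map_zero] at e4
  rw [← sub_eq_zero, sub2 h2] at e3 ⊢
  have e5 : A1 η + A2 η + η + (r + (h + η)) + (A1 (H.U η (H.inv (f + η))) +
      A2 (H.U η (H.inv (g + η))) + H.U (r + h) (H.inv r)) + (H.U h (H.inv f) + H.U h (H.inv f)) +
      (H.U h (H.inv g) + H.U h (H.inv g)) + (H.U h (H.inv h) + H.U h (H.inv h)) =
      (H.U h (H.inv f) + A1 η + A1 (H.U η (H.inv (f + η))) +
        (H.U h (H.inv g) + A2 η + A2 (H.U η (H.inv (g + η)))) +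
      (H.U h (H.inv h) + (r + h) + H.U (r + h) (H.inv r))) +
      (H.U h (H.inv f) + H.U h (H.inv g) + H.U h (H.inv h)) + (η + η) := by abel
  rw [e3, e4] at e5
  simp only [h2, add_zero] at e5
  exact e5

/-- polarisation in characteristic two -/
def Q (H : HS A) (x y c : A) : A := H.U (x + y) c + H.U x c + H.U y c

theorem Q_shift (H : HS A) (h2 : ∀ x : A, x + x = 0) (x η : A) {c : A} (hc : c ≠ 0) :
    Q H (x + H.inv c) η c = Q H x η c := by
  have h3 := U_shift H (x + η) (H.inv_ne c hc)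
  have h4 := U_shift H x (H.inv_ne c hc)
  rw [H.inv_inv] at h3 h4
  unfold Q
  have e1 : x + H.inv c + η = x + η + H.inv c := by abel
  rw [e1, h3, h4]
  have e2 : H.U (x + η) c + (x + η + (x + η) + H.inv c) + (H.U x c + (x + x + H.inv c)) +
      H.U η c = (H.U (x + η) c + H.U x c + H.U η c) + (x + η + (x + η)) + (x + x) +
      (H.inv c + H.inv c) := by abel
  rw [e2]
  simp only [h2, add_zero]

theorem Q_self (H : HS A) (h2 : ∀ x : A, x + x = 0) {x : A} (η : A) (hx : x ≠ 0) :
    Q H x η (H.inv x) = 0 := by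
  have h3 := U_shift H η hx
  unfold Q
  rw [add_comm x η, h3, H.U_self]
  have e2 : H.U η (H.inv x) + (η + η + x) + x + H.U η (H.inv x) =
      (H.U η (H.inv x) + H.U η (H.inv x)) + (η + η) + (x + x) := by abel
  rw [e2]
  simp only [h2, add_zero]

theorem Q_add (H : HS A) (x y c c' : A) : Q H x y (c + c') = Q H x y c + Q H x y c' := by
  unfold Q
  simp only [map_add]
  abel

/-- the dual form of the Hua identity -/
theorem inv_inv_add (H : HS A) {w v : A} (hw : w ≠ 0) (hv : v ≠ 0) (hwv : w + v ≠ 0) :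
    H.inv (H.inv w + H.inv v) = v - H.U v (H.inv (w + v)) := by
  have hne : H.inv v + H.inv w ≠ 0 := by
    intro h
    apply hwv
    have h1 : H.inv w = - H.inv v := by
      rw [eq_neg_iff_add_eq_zero, add_comm]; exact h
    have h2 : w = -v := by
      rw [← H.inv_inv w, h1, H.inv_neg, H.inv_inv]
    rw [h2]; abel
  have e2 := H.inv_add (H.inv v) (H.inv w) (H.inv_ne v hv) (H.inv_ne w hw) hne
  rw [H.inv_inv, H.inv_inv, add_comm v w] at e2
  rw [add_comm]
  exact e2

end Pool.Agent.HuaPerf2
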