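import Mathlib
import Pool.Agent.HuaDom91.Basic

/-!
Perfect groups of a Hua system in arbitrary characteristic: two incomparable perfect groups have
an intersection of infinite index, and a perfect group covered by finitely many perfect groups is
contained in one of them.
-/

set_option autoImplicit false

namespace Pool.Agent.HuaPerf2

open scoped Pointwise

open Pool.Agent.HuaTop84 Pool.Agent.HuaVal Pool.Agent.HuaOne84 Pool.Agent.HuaDom91

variable {A : Type} [AddCommGroup A] {K : Type} [Field K] [Module K A] {H : HS A}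

/-- Incomparable perfect groups: there are infinitely many elements of one of them which are
pairwise different modulo the other one. -/
theorem comp (S : H.Scal K) {D E D₁ E₁ : Submodule K A} (h : Perf H D E) (h₁ : Perf H D₁ E₁)
    {c x : A} (hc : c ∈ D) (hc₁ : c ∉ D₁) (hx₁ : x ∈ D₁) (hx : x ∉ D) :
    ∃ f : ℕ → A, (∀ n, f n ∈ D) ∧ ∀ m n, m ≠ n → f m - f n ∉ D₁ := by
  have hc0 : c ≠ 0 := fun h0 => hc₁ (h0 ▸ D₁.zero_mem)
  have hx0 : x ≠ 0 := fun h0 => hx (h0 ▸ D.zero_mem)
  set hh : A →+ A := (H.U c).comp (H.U (H.inv x)) with hhdef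
  set gg : A →+ A := (H.U x).comp (H.U (H.inv c)) with ggdef
  have hhD : ∀ d ∈ D, hh d ∈ D := by
    intro d hd
    have h1 : H.U (H.inv x) d ∈ E := by
      apply h.N_le S hx
      rw [mem_N, H.U_inv_right x _ hx0]
      exact hd
    exact h.le_N S hc hc0 h1
  have ggD : ∀ d ∈ E₁, H.U x d ∈ D₁ := fun d hd => h₁.le_N S hx₁ hx0 hd
  have ggD₁ : ∀ d ∈ D₁, gg d ∈ D₁ := by
    intro d hd
    apply ggD
    apply h₁.N_le S hc₁
    rw [mem_N, H.U_inv_right c _ hc0]
    exact hd
  have ggc : gg c ∈ D₁ := by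
    have h1 : H.U (H.inv c) c = H.inv c := by
      have := H.U_self (H.inv c)
      rwa [H.inv_inv] at this
    show H.U x (H.U (H.inv c) c) ∈ D₁
    rw [h1]
    exact ggD _ (h₁.inv_mem hc₁)
  have hgh : ∀ y, gg (hh y) = y := by
    intro y
    show H.U x (H.U (H.inv c) (H.U c (H.U (H.inv x) y))) = y
    rw [H.U_inv_left c _ hc0, H.U_inv_right x _ hx0]
  have ggit : ∀ j d, d ∈ D₁ → gg^[j] d ∈ D₁ := by
    intro j
    induction j with
    | zero => intro d hd; simpa using hd
    | succ j ih =>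
      intro d hd
      rw [Function.iterate_succ_apply]
      exact ih _ (ggD₁ _ hd)
  have ggsub : ∀ (j : ℕ) (u v : A), gg^[j] (u - v) = gg^[j] u - gg^[j] v := by
    intro j
    induction j with
    | zero => intro u v; simp
    | succ j ih =>
      intro u v
      rw [Function.iterate_succ_apply, map_sub, ih, Function.iterate_succ_apply,
        Function.iterate_succ_apply]
  have hghit : ∀ (j : ℕ) (y : A), gg^[j] (hh^[j] y) = y := by
    intro j
    induction j with
    | zero => intro y; simp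
    | succ j ih =>
      intro y
      rw [Function.iterate_succ_apply' (⇑hh), Function.iterate_succ_apply, hgh, ih]
  have main : ∀ m n, n < m → hh^[m] c - hh^[n] c ∉ D₁ := by
    intro m n hmn hmem
    obtain ⟨k, rfl⟩ := Nat.exists_eq_add_of_lt hmn
    have h1 := ggit (n + k + 1) _ hmem
    rw [ggsub, hghit] at h1
    have h2 : gg^[n + k + 1] (hh^[n] c) = gg^[k] (gg c) := by
      have e : n + k + 1 = (k + 1) + n := by omega
      rw [e, Function.iterate_add_apply, hghit, Function.iterate_succ_apply]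
    rw [h2] at h1
    have h3 := D₁.add_mem h1 (ggit k _ ggc)
    rw [sub_add_cancel] at h3
    exact hc₁ h3
  refine ⟨fun n => hh^[n] c, ?_, ?_⟩
  · intro n
    show hh^[n] c ∈ D
    induction n with
    | zero => simpa using hc
    | succ n ih =>
      rw [Function.iterate_succ_apply']
      exact hhD _ ih
  · intro m n hmn
    rcases lt_or_gt_of_ne hmn with h1 | h1
    · intro h2
      apply main n m h1
      have h3 := D₁.neg_mem h2
      rwa [neg_sub] at h3
    · exact main m n h1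

/-- A subgroup which has infinitely many cosets with representatives in `S` has infinite index
in `S`. -/
theorem not_finiteIndex {S D : AddSubgroup A} {f : ℕ → A} (hf : ∀ n, f n ∈ S)
    (hd : ∀ m n, m ≠ n → f m - f n ∉ D) : ¬ (D.addSubgroupOf S).FiniteIndex := by
  intro hfin
  have h1 : Finite (S ⧸ D.addSubgroupOf S) := AddSubgroup.finite_quotient_of_finiteIndex
  have h2 : Function.Injective
      (fun n : ℕ => (QuotientAddGroup.mk (⟨f n, hf n⟩ : S) : S ⧸ D.addSubgroupOf S)) := by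
    intro m n hmn
    by_contra hne
    apply hd n m (Ne.symm hne)
    have h3 := QuotientAddGroup.eq.mp hmn
    rw [AddSubgroup.mem_addSubgroupOf] at h3
    have h4 : ((-(⟨f m, hf m⟩ : S) + ⟨f n, hf n⟩ : S) : A) = f n - f m := by
      simp only [AddSubgroup.coe_add, NegMemClass.coe_neg]
      abel
    rwa [h4] at h3
  exact not_injective_infinite_finite _ h2

/-- **Covering theorem.** A perfect group covered by finitely many perfect groups is contained
in one of them. -/
theorem cover (Sc : H.Scal K) {ι : Type} (s : Finset ι) {D E : ι → Submodule K A}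
    (hD : ∀ i ∈ s, Perf H (D i) (E i)) {S T : Submodule K A} (hS : Perf H S T)
    (hcov : ∀ y ∈ S, ∃ i ∈ s, y ∈ D i) : ∃ i ∈ s, S ≤ D i := by
  classical
  by_contra hcon
  push Not at hcon
  set G := S.toAddSubgroup with hG
  set t := s.filter (fun i => ((D i).toAddSubgroup.addSubgroupOf G).FiniteIndex) with ht
  have hcov1 : ⋃ i ∈ s, (0 : G) +ᵥ (((D i).toAddSubgroup.addSubgroupOf G : AddSubgroup G) : Set G) =
      Set.univ := by
    rw [Set.eq_univ_iff_forall]
    intro y
    obtain ⟨i, hi, hy⟩ := hcov y.1 y.2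
    simp only [Set.mem_iUnion]
    refine ⟨i, hi, ?_⟩
    rw [zero_vadd]
    exact hy
  have hcov2 := AddSubgroup.leftCoset_cover_filter_FiniteIndex hcov1
  have hcov3 : ∀ y ∈ S, ∃ i ∈ t, y ∈ D i := by
    intro y hy
    have h1 : (⟨y, hy⟩ : G) ∈ ⋃ i ∈ t, (0 : G) +ᵥ
        (((D i).toAddSubgroup.addSubgroupOf G : AddSubgroup G) : Set G) := by
      rw [ht, hcov2]
      exact Set.mem_univ _
    simp only [Set.mem_iUnion] at h1
    obtain ⟨i, hi, h2⟩ := h1
    rw [zero_vadd] at h2
    exact ⟨i, hi, h2⟩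
  have hts : ∀ i ∈ t, i ∈ s ∧ ((D i).toAddSubgroup.addSubgroupOf G).FiniteIndex := by
    intro i hi
    rw [ht, Finset.mem_filter] at hi
    exact hi
  -- the groups of finite index are contained in `S`
  have hle : ∀ i ∈ t, D i ≤ S := by
    intro i hi
    obtain ⟨his, hfi⟩ := hts i hi
    by_contra hnle
    obtain ⟨x, hx, hxS⟩ := Set.not_subset.mp (hnle : ¬ ((D i : Set A) ⊆ S))
    obtain ⟨c, hc, hcD⟩ := Set.not_subset.mp (hcon i his : ¬ ((S : Set A) ⊆ D i))
    obtain ⟨f, hf, hd⟩ := comp Sc hS (hD i his) hc hcD hx hxS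
    exact not_finiteIndex (S := G) (D := (D i).toAddSubgroup) hf hd hfi
  -- they are comparable
  have hcomp : ∀ i ∈ t, ∀ j ∈ t, D i ≤ D j ∨ D j ≤ D i := by
    intro i hi j hj
    obtain ⟨his, hfi⟩ := hts i hi
    obtain ⟨hjs, hfj⟩ := hts j hj
    by_contra hcon2
    push Not at hcon2
    obtain ⟨h1, h2⟩ := hcon2
    obtain ⟨x, hx, hxS⟩ := Set.not_subset.mp (h1 : ¬ ((D i : Set A) ⊆ D j))
    obtain ⟨c, hc, hcD⟩ := Set.not_subset.mp (h2 : ¬ ((D j : Set A) ⊆ D i))
    obtain ⟨f, hf, hd⟩ := comp Sc (hD j hjs) (hD i his) hc hcD hx hxS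
    exact not_finiteIndex (S := G) (D := (D i).toAddSubgroup) (fun n => hle j hj (hf n)) hd hfi
  -- a largest one
  obtain ⟨i₀, hi₀, -⟩ := hcov3 0 S.zero_mem
  obtain ⟨m, hm⟩ := (t.image D).exists_maximal ⟨D i₀, Finset.mem_image_of_mem _ hi₀⟩
  obtain ⟨i, hi, rfl⟩ := Finset.mem_image.mp hm.1
  apply hcon i (hts i hi).1
  intro y hy
  obtain ⟨j, hj, hyj⟩ := hcov3 y hy
  rcases hcomp i hi j hj with h1 | h1
  · exact hm.2 (Finset.mem_image_of_mem _ hj) h1 hyj
  · exact h1 hyj

/-- Inclusions of perfect groups are reversed by duality. -/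
theorem dual_le {D E D₁ E₁ : Submodule K A} (h : Perf H D E) (h₁ : Perf H D₁ E₁) (hle : D ≤ D₁) :
    E₁ ≤ E := by
  intro y hy
  by_contra hyE
  have hy0 : y ≠ 0 := fun h0 => hyE (h0 ▸ E.zero_mem)
  have h1 := hle (h.inv_mem' hyE)
  have h2 := (h₁.symm.iff y hy0).1 hy
  exact h2 h1

/-- **Exact approximation.** If `⋂ U_x⁻¹ P ≤ U_c⁻¹ P`, then one of the `U_x⁻¹ P` is contained in
`U_c⁻¹ P`, and `U_c R ≤ U_x R`. -/
theorem app (Sc : H.Scal K) {P R : Submodule K A} (h : Perf H P R) {c : A} (hc0 : c ≠ 0)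
    (s : Finset A) (hs : ∀ x ∈ s, x ≠ 0)
    (hle : ∀ v, (∀ x ∈ s, v ∈ N Sc P x) → v ∈ N Sc P c) :
    ∃ x ∈ s, N Sc P x ≤ N Sc P c ∧ N Sc R (H.inv c) ≤ N Sc R (H.inv x) := by
  have key : ∀ y ∈ N Sc R (H.inv c), y ≠ 0 → ∃ x ∈ s, y ∈ N Sc R (H.inv x) := by
    intro y hy hy0
    by_contra hcon
    push Not at hcon
    have h1 : H.inv y ∈ N Sc P c := hle _ fun x hx => (h.refl Sc (hs x hx)).inv_mem (hcon x hx)
    exact ((h.refl Sc hc0).iff y hy0).1 hy h1
  obtain ⟨y₀, hy₀, hy₀0⟩ := Submodule.exists_mem_ne_zero_of_ne_bot (h.refl Sc hc0).ne_bot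
  obtain ⟨x₀, hx₀, -⟩ := key y₀ hy₀ hy₀0
  obtain ⟨x, hx, h1⟩ := cover Sc s (D := fun x => N Sc R (H.inv x)) (E := fun x => N Sc P x)
    (fun x hx => h.refl Sc (hs x hx)) (h.refl Sc hc0) (by
      intro y hy
      by_cases hy0 : y = 0
      · exact ⟨x₀, hx₀, hy0 ▸ Submodule.zero_mem _⟩
      · exact key y hy hy0)
  exact ⟨x, hx, dual_le (h.refl Sc hc0) (h.refl Sc (hs x hx)) h1, h1⟩

end Pool.Agent.HuaPerf2
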