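import Mathlib
import Pool.Agent.HuaPerf2.Cover73
import Pool.Agent.HuaPP39.Gen

/-!
Dominance in characteristic two: the four point rule.
-/

set_option autoImplicit false

namespace Pool.Agent.HuaPerf2

open Pool.Agent.HuaTop84 Pool.Agent.HuaVal Pool.Agent.HuaOne84 Pool.Agent.HuaDom91
  Pool.Agent.HuaPP39

variable {A : Type} [AddCommGroup A] {K : Type} [Field K] [Module K A] {H : HS A}

/-- If `z` is not above `c`, then `z ∈ U_c R`. -/
theorem mem_s_of_not_le (S : H.Scal K) {P R : Submodule K A} (h : Perf H P R) {c z : A}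
    (hc : c ∉ P) (hz : z ∉ P) (hbad : ¬ N S P z ≤ N S P c) : z ∈ N S R (H.inv c) := by
  by_contra hzc
  apply hbad
  have h1 := s_le_s h S hc hzc
  exact dual_le (h.refl S (ne_of_notMem hc)) (h.refl S (ne_of_notMem hz)) h1

/-- The basic relation: for `v` in `U_z⁻¹ P` and in `U_{z+y}⁻¹ P`. -/
theorem key_one (S : H.Scal K) {P R : Submodule K A} (h : Perf H P R) {z y v : A}
    (hy : y ∉ P) (z0 : z ∉ P) (z1 : z + y ∉ P) (w0 : v ∈ N S P z) (w1 : v ∈ N S P (z + y)) :
    (H.U (H.inv z + v) (H.U z (H.inv y)) - H.inv y) +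
        (H.U (H.inv z + v) z - (H.inv z + v)) ∈ N S P y := by
  have hz0 : z ≠ 0 := ne_of_notMem z0
  have hy0 : y ≠ 0 := ne_of_notMem hy
  obtain ⟨p0, hp0, e0⟩ := h.coset' S z0 w0
  obtain ⟨p1, hp1, e1⟩ := h.coset' S z1 w1
  have ha : H.inv z + v ≠ 0 := by
    rw [e0]; exact H.inv_ne _ fun h0 => h.add_ne z0 hp0 (h0 ▸ P.zero_mem)
  have ha' : H.inv (z + y) + v ≠ 0 := by
    rw [e1]; exact H.inv_ne _ fun h0 => h.add_ne z1 hp1 (h0 ▸ P.zero_mem)
  have hzt : z + y ≠ 0 := ne_of_notMem z1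
  have f := conj_formula H hz0 hy0 hzt ha ha'
  have e0' : H.inv (H.inv z + v) = z + p0 := by rw [e0, H.inv_inv]
  have e1' : H.inv (H.inv (z + y) + v) = z + y + p1 := by rw [e1, H.inv_inv]
  have e2 : z + y + p1 - (z + p0) = y + (p1 - p0) := by abel
  rw [e0', e1', e2] at f
  have g := h.coset S hy (P.sub_mem hp1 hp0)
  rw [f] at g
  have e3 : H.U (H.inv z + v) (H.U z (H.inv y)) + H.U (H.inv z + v) z - (H.inv z + v) -
      H.inv y = (H.U (H.inv z + v) (H.U z (H.inv y)) - H.inv y) +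
        (H.U (H.inv z + v) z - (H.inv z + v)) := by abel
  rwa [e3] at g

/-- `v ∈ U_z⁻¹ P`, `v ∉ U_c⁻¹ P` and `z ∈ U_c R` imply `v + U_v z ∉ U_c⁻¹ P`. -/
theorem key_two (S : H.Scal K) {P R : Submodule K A} (h : Perf H P R) {c z v : A}
    (hc : c ∉ P) (z0 : z ∉ P) (hzc : z ∈ N S R (H.inv c)) (w0 : v ∈ N S P z)
    (hv : v ∉ N S P c) : v + H.U v z ∉ N S P c := by
  have hz0 : z ≠ 0 := ne_of_notMem z0
  have hc0 : c ≠ 0 := ne_of_notMem hc
  have hv0 : v ≠ 0 := fun h0 => hv (h0 ▸ Submodule.zero_mem _)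
  have hq := h.refl S hc0
  obtain ⟨p0, hp0, e0⟩ := h.coset' S z0 w0
  have ha : H.inv z + v ≠ 0 := by
    rw [e0]; exact H.inv_ne _ fun h0 => h.add_ne z0 hp0 (h0 ▸ P.zero_mem)
  have ha' : v + H.inv z ≠ 0 := by rwa [add_comm]
  have f := inv_sub H hv0 (H.inv_ne z hz0) ha'
  rw [H.inv_inv] at f
  have e1 : H.inv (v + H.inv z) = z + p0 := by rw [add_comm, e0, H.inv_inv]
  intro hmem
  have hiv : H.inv v ∈ N S R (H.inv c) := by
    have h1 := hq.symm.inv_mem hv
    exact h1
  have h2 : H.inv (v + H.U v z) ∈ N S R (H.inv c) := by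
    rw [← f, e1]
    exact Submodule.sub_mem _ hiv (Submodule.add_mem _ hzc (le_s h S hc hp0))
  by_cases h0 : v + H.U v z = 0
  · rw [h0, H.inv_zero, sub_eq_zero] at f
    have h3 := inv_inj f
    apply H.inv_ne z hz0
    have h4 : H.inv z = v + H.inv z - v := by abel
    rw [h4, ← h3, sub_self]
  · exact (hq.symm.iff _ h0).1 hmem h2

/-- **The four point rule** (characteristic two): if the inverses of `y₁, y₂, y₃ ≥ c` have sum
zero, then one of the points `z, z + y₁, z + y₂, z + y₃` is above `c`. -/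
theorem four (S : H.Scal K) (h2 : ∀ x : A, x + x = 0) {P R : Submodule K A} (h : Perf H P R)
    {c z y₁ y₂ y₃ : A} (hc : c ∉ P) (hy₁ : y₁ ∉ P) (hy₂ : y₂ ∉ P) (hy₃ : y₃ ∉ P)
    (hsum : H.inv y₁ + H.inv y₂ + H.inv y₃ = 0) (g₁ : N S P y₁ ≤ N S P c)
    (g₂ : N S P y₂ ≤ N S P c) (g₃ : N S P y₃ ≤ N S P c) (z0 : z ∉ P) (z1 : z + y₁ ∉ P)
    (z2 : z + y₂ ∉ P) (z3 : z + y₃ ∉ P) :
    N S P z ≤ N S P c ∨ N S P (z + y₁) ≤ N S P c ∨ N S P (z + y₂) ≤ N S P c ∨
      N S P (z + y₃) ≤ N S P c := by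
  classical
  by_contra hcon
  push Not at hcon
  obtain ⟨b0, b1, b2, b3⟩ := hcon
  have hc0 : c ≠ 0 := ne_of_notMem hc
  have hz0 : z ≠ 0 := ne_of_notMem z0
  have hzc := mem_s_of_not_le S h hc z0 b0
  obtain ⟨x, hx, hxc, -⟩ := app S h hc0 ({z, z + y₁, z + y₂, z + y₃} : Finset A) (by
      intro x hx
      simp only [Finset.mem_insert, Finset.mem_singleton] at hx
      rcases hx with rfl | rfl | rfl | rfl
      · exact hz0
      · exact ne_of_notMem z1
      · exact ne_of_notMem z2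
      · exact ne_of_notMem z3) (by
      intro v hv
      have w0 : v ∈ N S P z := hv _ (by simp)
      have w1 : v ∈ N S P (z + y₁) := hv _ (by simp)
      have w2 : v ∈ N S P (z + y₂) := hv _ (by simp)
      have w3 : v ∈ N S P (z + y₃) := hv _ (by simp)
      have k1 := g₁ (key_one S h hy₁ z0 z1 w0 w1)
      have k2 := g₂ (key_one S h hy₂ z0 z2 w0 w2)
      have k3 := g₃ (key_one S h hy₃ z0 z3 w0 w3)
      have k := Submodule.add_mem _ (Submodule.add_mem _ k1 k2) k3
      set d := H.U (H.inv z + v) z - (H.inv z + v) with hd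
      have e : (H.U (H.inv z + v) (H.U z (H.inv y₁)) - H.inv y₁) + d +
          ((H.U (H.inv z + v) (H.U z (H.inv y₂)) - H.inv y₂) + d) +
          ((H.U (H.inv z + v) (H.U z (H.inv y₃)) - H.inv y₃) + d) =
          H.U (H.inv z + v) (H.U z (H.inv y₁ + H.inv y₂ + H.inv y₃)) -
            (H.inv y₁ + H.inv y₂ + H.inv y₃) + (d + d) + d := by
        rw [map_add, map_add, map_add, map_add]
        abel
      rw [e, hsum, map_zero, map_zero, h2 d, sub_zero, zero_add, zero_add] at k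
      have e4 : d = v + H.U v z := by
        have f := U_shift H v (H.inv_ne z hz0)
        rw [H.inv_inv, add_comm v (H.inv z)] at f
        rw [hd, f]
        abel
      rw [e4] at k
      by_contra hvc
      exact key_two S h hc z0 hzc w0 hvc k)
  simp only [Finset.mem_insert, Finset.mem_singleton] at hx
  rcases hx with rfl | rfl | rfl | rfl
  · exact b0 hxc
  · exact b1 hxc
  · exact b2 hxc
  · exact b3 hxc

/-- **The general rule** (characteristic two): an odd number of elements `y i ≥ c` whose inverses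
have sum zero. -/
theorem rule_odd (S : H.Scal K) (h2 : ∀ x : A, x + x = 0) {P R : Submodule K A}
    (h : Perf H P R) {c z : A} {ι : Type} (s : Finset ι) (hs : Odd s.card) (y : ι → A)
    (hc : c ∉ P) (hy : ∀ i ∈ s, y i ∉ P) (hsum : ∑ i ∈ s, H.inv (y i) = 0)
    (g : ∀ i ∈ s, N S P (y i) ≤ N S P c) (z0 : z ∉ P) (z1 : ∀ i ∈ s, z + y i ∉ P) :
    N S P z ≤ N S P c ∨ ∃ i ∈ s, N S P (z + y i) ≤ N S P c := by
  classical
  by_contra hcon
  push Not at hcon
  obtain ⟨b0, b1⟩ := hcon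
  have hc0 : c ≠ 0 := ne_of_notMem hc
  have hz0 : z ≠ 0 := ne_of_notMem z0
  have hzc := mem_s_of_not_le S h hc z0 b0
  obtain ⟨x, hx, hxc, -⟩ := app S h hc0 (insert z (s.image fun i => z + y i)) (by
      intro x hx
      rw [Finset.mem_insert, Finset.mem_image] at hx
      rcases hx with rfl | ⟨i, hi, rfl⟩
      · exact hz0
      · exact ne_of_notMem (z1 i hi)) (by
      intro v hv
      have w0 : v ∈ N S P z := hv _ (Finset.mem_insert_self _ _)
      have w1 : ∀ i ∈ s, v ∈ N S P (z + y i) := fun i hi =>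
        hv _ (Finset.mem_insert_of_mem (Finset.mem_image_of_mem _ hi))
      have k1 : ∑ i ∈ s, ((H.U (H.inv z + v) (H.U z (H.inv (y i))) - H.inv (y i)) +
          (H.U (H.inv z + v) z - (H.inv z + v))) ∈ N S P c :=
        Submodule.sum_mem _ fun i hi => g i hi (key_one S h (hy i hi) z0 (z1 i hi) w0 (w1 i hi))
      set d := H.U (H.inv z + v) z - (H.inv z + v) with hd
      have e : ∑ i ∈ s, ((H.U (H.inv z + v) (H.U z (H.inv (y i))) - H.inv (y i)) + d) = d := by
        rw [Finset.sum_add_distrib, Finset.sum_sub_distrib, ← map_sum, ← map_sum, hsum, map_zero,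
          map_zero, sub_zero, zero_add, Finset.sum_const]
        obtain ⟨k, hk⟩ := hs
        rw [hk, add_smul, mul_smul, one_smul, two_smul, h2, zero_add]
      rw [e] at k1
      have e4 : d = v + H.U v z := by
        have f := U_shift H v (H.inv_ne z hz0)
        rw [H.inv_inv, add_comm v (H.inv z)] at f
        rw [hd, f]
        abel
      rw [e4] at k1
      by_contra hvc
      exact key_two S h hc z0 hzc w0 hvc k1)
  rw [Finset.mem_insert, Finset.mem_image] at hx
  rcases hx with rfl | ⟨i, hi, rfl⟩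
  · exact b0 hxc
  · exact b1 i hi hxc

end Pool.Agent.HuaPerf2
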