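import Mathlib
import Pool.Agent.HuaDom91.Basic

/-!
Characteristic 2: in a three dimensional space over the field with two elements the
intersection of six of the seven translates lies in the seventh.
-/

set_option autoImplicit false

namespace Pool.Agent.HuaPerf2

open Pool.Agent.HuaTop84 Pool.Agent.HuaVal Pool.Agent.HuaOne84 Pool.Agent.HuaDom91

variable {A : Type} [AddCommGroup A] {K : Type} [Field K] [Module K A] {H : HS A}

/-- The relation between the values of `u ↦ U_u c⁻¹` at `y` and `y + z`. -/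
theorem rel {P R : Submodule K A} (h : Perf H P R) (S : H.Scal K) (h2 : ∀ x : A, x + x = 0)
    {c z y : A} (hc : c ∉ P) (hz : z ∉ P) (hzc : z + c ∉ P) (hy : y ≠ 0)
    (hv : H.inv y ∈ N S P z) (hv' : H.inv y ∈ N S P (z + c)) :
    H.U (H.inv y) (H.U (y + z) (H.inv c) + H.U y (H.inv c) + (y + z)) ∈ N S P c := by
  have hc0 : c ≠ 0 := fun h0 => hc (h0 ▸ P.zero_mem)
  have hz0 : z ≠ 0 := fun h0 => hz (h0 ▸ P.zero_mem)
  have hzc0 : z + c ≠ 0 := fun h0 => hzc (h0 ▸ P.zero_mem)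
  have hv0 : H.inv y ≠ 0 := H.inv_ne y hy
  have hz'0 : H.inv z ≠ 0 := H.inv_ne z hz0
  obtain ⟨p, hp, e1⟩ := h.coset' S hz hv
  obtain ⟨p', hp', e2⟩ := h.coset' S hzc hv'
  have hzp : z + p ≠ 0 := fun h0 => h.add_ne hz hp (h0 ▸ P.zero_mem)
  have hzp' : z + c + p' ≠ 0 := fun h0 => h.add_ne hzc hp' (h0 ▸ P.zero_mem)
  have ha : H.inv z + H.inv y ≠ 0 := by rw [e1]; exact H.inv_ne _ hzp
  have ha' : H.inv (z + c) + H.inv y ≠ 0 := by rw [e2]; exact H.inv_ne _ hzp'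
  have hcf := conj_formula H hz0 hc0 hzc0 ha ha'
  have e3 : H.inv (H.inv (z + c) + H.inv y) - H.inv (H.inv z + H.inv y) = c + (p' - p) := by
    rw [e1, e2, H.inv_inv, H.inv_inv]; abel
  rw [e3] at hcf
  have h3 := h.coset S hc (P.sub_mem hp' hp)
  rw [hcf] at h3
  have hs : ∀ x, H.U (H.inv z + H.inv y) x =
      H.U (H.inv y) (H.U (y + z) (H.U (H.inv z) x)) := by
    intro x
    rw [add_comm (H.inv z)]
    have := H.sum (H.inv y) (H.inv z) x hv0 hz'0 (by rwa [add_comm] at ha)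
    rwa [H.inv_inv, H.inv_inv] at this
  have e4 : H.U (H.inv z + H.inv y) (H.U z (H.inv c)) =
      H.U (H.inv y) (H.U (y + z) (H.inv c)) := by
    rw [hs, H.U_inv_left z _ hz0]
  have e5 : H.U (H.inv z + H.inv y) z = H.inv z + H.U (H.inv y) z := by
    have h5 : H.U (H.inv z) z = H.inv z := by
      have := H.U_self (H.inv z)
      rwa [H.inv_inv] at this
    rw [hs, h5, U_shift H y hz0, h2 y, zero_add, map_add, H.U_inv_left y _ hy]
  rw [e4, e5] at h3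
  have h6 : H.U (H.inv y) y = H.inv y := by
    have := H.U_self (H.inv y)
    rwa [H.inv_inv] at this
  have e6 : H.U (H.inv y) (H.U (y + z) (H.inv c) + H.U y (H.inv c) + (y + z)) =
      H.U (H.inv y) (H.U (y + z) (H.inv c)) + (H.inv z + H.U (H.inv y) z) -
        (H.inv z + H.inv y) - H.inv c + (H.inv c + H.inv c) + (H.inv y + H.inv y) := by
    rw [map_add, map_add, map_add, H.U_inv_left y _ hy, h6]
    abel
  rw [e6, h2, h2, add_zero, add_zero]
  exact h3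

/-- The six point lemma: `c, z₁, z₂` span a three dimensional space outside `P`, and `z₁` lies
in `s_c P`, `s_{z₂} P`, `s_{z₂ + c} P`. -/
theorem six {P R : Submodule K A} (h : Perf H P R) (S : H.Scal K) (h2 : ∀ x : A, x + x = 0)
    {c z₁ z₂ : A} (hc : c ∉ P) (h1 : z₁ ∉ P) (h1c : z₁ + c ∉ P) (hz2 : z₂ ∉ P)
    (h2c : z₂ + c ∉ P) (h12 : z₁ + z₂ ∉ P) (h12c : z₁ + z₂ + c ∉ P)
    (r1 : z₁ ∈ N S R (H.inv c)) (r2 : z₁ ∈ N S R (H.inv z₂))
    (r3 : z₁ ∈ N S R (H.inv (z₂ + c))) {v : A} (v1 : v ∈ N S P z₁) (v2 : v ∈ N S P (z₁ + c))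
    (v3 : v ∈ N S P z₂) (v4 : v ∈ N S P (z₂ + c)) (v5 : v ∈ N S P (z₁ + z₂))
    (v6 : v ∈ N S P (z₁ + z₂ + c)) : v ∈ N S P c := by
  by_contra hvc
  have hc0 : c ≠ 0 := fun h0 => hc (h0 ▸ P.zero_mem)
  have h10 : z₁ ≠ 0 := fun h0 => h1 (h0 ▸ P.zero_mem)
  have h20 : z₂ ≠ 0 := fun h0 => hz2 (h0 ▸ P.zero_mem)
  have h2c0 : z₂ + c ≠ 0 := fun h0 => h2c (h0 ▸ P.zero_mem)
  have hv0 : v ≠ 0 := fun h0 => hvc (h0 ▸ (N S P c).zero_mem)
  obtain ⟨y, hyv⟩ : ∃ y, y = H.inv v := ⟨_, rfl⟩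
  have hy : y ≠ 0 := by rw [hyv]; exact H.inv_ne v hv0
  have hvy : H.inv y = v := by rw [hyv, H.inv_inv]
  have pc := h.refl S hc0
  have p1 := h.refl S h10
  have p2 := h.refl S h20
  have p2c := h.refl S h2c0
  have hyE : y ∈ N S R (H.inv c) := by
    rw [hyv]
    exact pc.inv_mem' hvc
  have hy1E : y + z₁ ∈ N S R (H.inv c) := Submodule.add_mem _ hyE r1
  have hy1 : y + z₁ ∉ N S R (H.inv z₁) := by
    intro h0
    have h3 : z₁ ∈ N S R (H.inv z₁) := by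
      rw [mem_N]
      have := H.U_self (H.inv z₁)
      rw [H.inv_inv] at this
      rw [this]
      exact h.inv_mem h1
    have h4 := Submodule.sub_mem _ h0 h3
    rw [add_sub_cancel_right] at h4
    apply p1.inv_notMem h4 hy
    rw [hvy]; exact v1
  have hy10 : y + z₁ ≠ 0 := fun h0 => hy1 (h0 ▸ Submodule.zero_mem _)
  -- `(y + z₁)⁻¹` lies in the translates of `z₂` and `z₂ + c`
  have w2 : H.inv (y + z₁) ∈ N S P z₂ := by
    apply p2.inv_mem
    intro h0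
    have h4 := Submodule.sub_mem _ h0 r2
    rw [add_sub_cancel_right] at h4
    apply p2.inv_notMem h4 hy
    rw [hvy]; exact v3
  have w2c : H.inv (y + z₁) ∈ N S P (z₂ + c) := by
    apply p2c.inv_mem
    intro h0
    have h4 := Submodule.sub_mem _ h0 r3
    rw [add_sub_cancel_right] at h4
    apply p2c.inv_notMem h4 hy
    rw [hvy]; exact v4
  have R1 := rel h S h2 hc h1 h1c hy (by rw [hvy]; exact v1) (by rw [hvy]; exact v2)
  have R3 := rel h S h2 hc h12 h12c hy (by rw [hvy]; exact v5) (by rw [hvy]; exact v6)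
  have R2 := rel h S h2 hc hz2 h2c hy10 w2 w2c
  -- `y₁ = g₀ + g₁`
  obtain ⟨g, hg⟩ : ∃ g, g = H.U (y + z₁ + z₂) (H.inv c) + H.U (y + z₁) (H.inv c) +
    (y + z₁ + z₂) := ⟨_, rfl⟩
  rw [← hg] at R2
  have e1 : (H.U (y + z₁) (H.inv c) + H.U y (H.inv c) + (y + z₁)) +
      (H.U (y + (z₁ + z₂)) (H.inv c) + H.U y (H.inv c) + (y + (z₁ + z₂))) = g + (y + z₁) := by
    have e0 : (H.U (y + z₁) (H.inv c) + H.U y (H.inv c) + (y + z₁)) +
      (H.U (y + (z₁ + z₂)) (H.inv c) + H.U y (H.inv c) + (y + (z₁ + z₂))) =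
      (H.U (y + z₁ + z₂) (H.inv c) + H.U (y + z₁) (H.inv c) +
        (y + z₁ + z₂)) + (y + z₁) + (H.U y (H.inv c) + H.U y (H.inv c)) := by
      rw [← add_assoc y]
      abel
    rw [e0, h2, add_zero, hg]
  have R4 : H.U (H.inv y) (g + (y + z₁)) ∈ N S P c := by
    rw [← e1, map_add]
    exact Submodule.add_mem _ R1 R3
  -- `g + (y + z₁)` is the inverse of `(y + z₁)⁻¹ + n`, `n ∈ N_c`
  have hn1 : H.inv (y + z₁) ∉ N S P c := pc.inv_notMem hy1E hy10
  obtain ⟨n, hn, e2⟩ := pc.symm.coset' S hn1 (x := g) (by rw [mem_N]; exact R2)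
  rw [H.inv_inv, add_comm (y + z₁)] at e2
  have hn0 : H.inv (y + z₁) + n ≠ 0 := fun h0 => pc.symm.add_ne hn1 hn (h0 ▸ Submodule.zero_mem _)
  rw [e2] at R4
  have hg0 : H.U (H.inv y) (H.inv (H.inv (y + z₁) + n)) ≠ 0 := fun h0 =>
    H.inv_ne _ hn0 (H.U_inj (H.inv_ne y hy) h0)
  have h5 := pc.symm.inv_notMem R4 hg0
  rw [H.inv_U _ _ (H.inv_ne y hy), H.inv_inv, H.inv_inv] at h5
  apply h5
  rw [map_add]
  apply Submodule.add_mem
  · -- `U_y y₁⁻¹ = U_{z₁} y₁⁻¹ + y₁`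
    have h6 := U_shift H z₁ hy10
    have e3 : z₁ + (y + z₁) = y := by
      have : z₁ + (y + z₁) = y + (z₁ + z₁) := by abel
      rw [this, h2, add_zero]
    rw [e3, h2, zero_add] at h6
    rw [h6]
    apply Submodule.add_mem _ _ hy1E
    have h7 : H.U z₁ (H.inv (y + z₁)) ∈ P := p1.inv_mem hy1
    by_contra h8
    have h9 := pc.inv_mem h8
    have h10 := h.N_le S hc h9
    by_cases h0 : H.U z₁ (H.inv (y + z₁)) = 0
    · apply h8; rw [h0]; exact Submodule.zero_mem _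
    · exact h.inv_notMem h7 h0 h10
  · have h6 := pc.le_N S hyE hy
    exact h6 hn

end Pool.Agent.HuaPerf2
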