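import Mathlib
import Pool.Agent.HuaPerf2.Cover73
import Pool.Agent.HuaPerf2.Six95

/-!
Characteristic 2: the two rules for the preorder `x ≥ c ↔ U_x⁻¹ P ≤ U_c⁻¹ P`: the rule for three
dimensional spaces and the rule for lines in the direction of three elements whose inverses
have sum zero.
-/

set_option autoImplicit false

namespace Pool.Agent.HuaPerf2

open Pool.Agent.HuaTop84 Pool.Agent.HuaVal Pool.Agent.HuaOne84 Pool.Agent.HuaDom91

variable {A : Type} [AddCommGroup A] {K : Type} [Field K] [Module K A] {H : HS A}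

/-- Rule III: in a three dimensional space outside `P` every element `c` lies below one of the
other six. -/
theorem three_ge {P R : Submodule K A} (h : Perf H P R) (S : H.Scal K) (h2 : ∀ x : A, x + x = 0)
    {c z₁ z₂ : A} (hc : c ∉ P) (h1 : z₁ ∉ P) (h1c : z₁ + c ∉ P) (hz2 : z₂ ∉ P)
    (h2c : z₂ + c ∉ P) (h12 : z₁ + z₂ ∉ P) (h12c : z₁ + z₂ + c ∉ P)
    (r1 : z₁ ∈ N S R (H.inv c)) (r2 : z₁ ∈ N S R (H.inv z₂))
    (r3 : z₁ ∈ N S R (H.inv (z₂ + c))) :
    N S P z₁ ≤ N S P c ∨ N S P (z₁ + c) ≤ N S P c ∨ N S P z₂ ≤ N S P c ∨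
      N S P (z₂ + c) ≤ N S P c ∨ N S P (z₁ + z₂) ≤ N S P c ∨
      N S P (z₁ + z₂ + c) ≤ N S P c := by
  classical
  have hP : ∀ x, x ∉ P → x ≠ 0 := fun x hx h0 => hx (h0 ▸ P.zero_mem)
  obtain ⟨x, hx, hle, -⟩ := app S h (hP c hc)
    ({z₁, z₁ + c, z₂, z₂ + c, z₁ + z₂, z₁ + z₂ + c} : Finset A)
    (by
      intro x hx
      simp only [Finset.mem_insert, Finset.mem_singleton] at hx
      rcases hx with rfl | rfl | rfl | rfl | rfl | rfl
      · exact hP _ h1
      · exact hP _ h1c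
      · exact hP _ hz2
      · exact hP _ h2c
      · exact hP _ h12
      · exact hP _ h12c)
    (by
      intro v hv
      exact six h S h2 hc h1 h1c hz2 h2c h12 h12c r1 r2 r3 (hv _ (by simp)) (hv _ (by simp))
        (hv _ (by simp)) (hv _ (by simp)) (hv _ (by simp)) (hv _ (by simp)))
  simp only [Finset.mem_insert, Finset.mem_singleton] at hx
  rcases hx with rfl | rfl | rfl | rfl | rfl | rfl
  · exact Or.inl hle
  · exact Or.inr (Or.inl hle)
  · exact Or.inr (Or.inr (Or.inl hle))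
  · exact Or.inr (Or.inr (Or.inr (Or.inl hle)))
  · exact Or.inr (Or.inr (Or.inr (Or.inr (Or.inl hle))))
  · exact Or.inr (Or.inr (Or.inr (Or.inr (Or.inr hle))))

/-- `P ≤ U_c R` for `c ∉ P`. -/
theorem le_E {P R : Submodule K A} (h : Perf H P R) (S : H.Scal K) {c : A} (hc : c ∉ P) :
    P ≤ N S R (H.inv c) := by
  intro x hx
  have hc0 : c ≠ 0 := fun h0 => hc (h0 ▸ P.zero_mem)
  by_contra h8
  have hx0 : x ≠ 0 := fun h0 => h8 (h0 ▸ Submodule.zero_mem _)
  have h9 := (h.refl S hc0).inv_mem h8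
  exact h.inv_notMem hx hx0 (h.N_le S hc h9)

/-- Rule F3: an element `z` outside `U_c R` lies above `c`. -/
theorem ge_of_notMem {P R : Submodule K A} (h : Perf H P R) (S : H.Scal K) {c z : A}
    (hc : c ∉ P) (hz : z ∉ N S R (H.inv c)) : N S P z ≤ N S P c := by
  have hc0 : c ≠ 0 := fun h0 => hc (h0 ▸ P.zero_mem)
  intro x hx
  apply (h.refl S hc0).N_le S hz
  exact le_E h S hc hx

/-- The bracket of the line rule. -/
theorem line_aux {P R : Submodule K A} (h : Perf H P R) (S : H.Scal K)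
    {c d z v : A} (hd : d ∉ P) (hdc : N S P d ≤ N S P c) (hz : z ∉ P) (hzd : z + d ∉ P)
    (hv : v ∈ N S P z) (hv' : v ∈ N S P (z + d)) :
    H.U (H.inv z + v) (H.U z (H.inv d)) - H.inv d + (H.U (H.inv z + v) z - (H.inv z + v)) ∈
      N S P c := by
  have hd0 : d ≠ 0 := fun h0 => hd (h0 ▸ P.zero_mem)
  have hz0 : z ≠ 0 := fun h0 => hz (h0 ▸ P.zero_mem)
  have hzd0 : z + d ≠ 0 := fun h0 => hzd (h0 ▸ P.zero_mem)
  obtain ⟨p, hp, e1⟩ := h.coset' S hz hv
  obtain ⟨p', hp', e2⟩ := h.coset' S hzd hv'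
  have hzp : z + p ≠ 0 := fun h0 => h.add_ne hz hp (h0 ▸ P.zero_mem)
  have hzp' : z + d + p' ≠ 0 := fun h0 => h.add_ne hzd hp' (h0 ▸ P.zero_mem)
  have ha : H.inv z + v ≠ 0 := by rw [e1]; exact H.inv_ne _ hzp
  have ha' : H.inv (z + d) + v ≠ 0 := by rw [e2]; exact H.inv_ne _ hzp'
  have hcf := conj_formula H hz0 hd0 hzd0 ha ha'
  have e3 : H.inv (H.inv (z + d) + v) - H.inv (H.inv z + v) = d + (p' - p) := by
    rw [e1, e2, H.inv_inv, H.inv_inv]; abel
  rw [e3] at hcf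
  have h3 := h.coset S hd (P.sub_mem hp' hp)
  rw [hcf] at h3
  have e4 : H.U (H.inv z + v) (H.U z (H.inv d)) - H.inv d +
      (H.U (H.inv z + v) z - (H.inv z + v)) =
      H.U (H.inv z + v) (H.U z (H.inv d)) + H.U (H.inv z + v) z - (H.inv z + v) - H.inv d := by
    abel
  rw [e4]
  exact hdc h3

/-- Rule II: on the line `z, z + c₁, z + c₂, z + c₃` with `c_i ≥ c`, `c₁⁻¹ + c₂⁻¹ + c₃⁻¹ = 0`,
one of the four points lies above `c`. -/
theorem line_ge {P R : Submodule K A} (h : Perf H P R) (S : H.Scal K) (h2 : ∀ x : A, x + x = 0)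
    {c z : A} (hc : c ∉ P) (d : Fin 3 → A) (hd : ∀ i, d i ∉ P)
    (hdc : ∀ i, N S P (d i) ≤ N S P c) (hsum : ∑ i, H.inv (d i) = 0) (hz : z ∉ P)
    (hzd : ∀ i, z + d i ∉ P) :
    N S P z ≤ N S P c ∨ ∃ i, N S P (z + d i) ≤ N S P c := by
  classical
  by_contra hcon
  rw [not_or] at hcon
  obtain ⟨hcz, hcd⟩ := hcon
  push Not at hcd
  have hP : ∀ x, x ∉ P → x ≠ 0 := fun x hx h0 => hx (h0 ▸ P.zero_mem)
  have hc0 := hP c hc
  obtain ⟨v, hv, hvc⟩ : ∃ v, (∀ x ∈ (insert z (Finset.univ.image fun i => z + d i) : Finset A),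
      v ∈ N S P x) ∧ v ∉ N S P c := by
    by_contra hno
    push Not at hno
    obtain ⟨x, hx, hle, -⟩ := app S h hc0 (insert z (Finset.univ.image fun i => z + d i))
      (by
        intro x hx
        rw [Finset.mem_insert, Finset.mem_image] at hx
        rcases hx with rfl | ⟨i, -, rfl⟩
        · exact hP _ hz
        · exact hP _ (hzd i))
      hno
    rw [Finset.mem_insert, Finset.mem_image] at hx
    rcases hx with rfl | ⟨i, -, rfl⟩
    · exact hcz hle
    · exact hcd i hle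
  have hvz : v ∈ N S P z := hv z (Finset.mem_insert_self _ _)
  have hvd : ∀ i, v ∈ N S P (z + d i) := fun i => hv _ (Finset.mem_insert_of_mem
    (Finset.mem_image_of_mem _ (Finset.mem_univ i)))
  have hv0 : v ≠ 0 := fun h0 => hvc (h0 ▸ (N S P c).zero_mem)
  have pc := h.refl S hc0
  have hzE : z ∈ N S R (H.inv c) := by
    by_contra h0
    exact hcz (ge_of_notMem h S hc h0)
  have hyE : H.inv v ∈ N S R (H.inv c) := pc.inv_mem' hvc
  obtain ⟨p, hp, e1⟩ := h.coset' S hz hvz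
  have hzp : z + p ≠ 0 := fun h0 => h.add_ne hz hp (h0 ▸ P.zero_mem)
  have hz0 := hP z hz
  have ha : H.inv z + v ≠ 0 := by rw [e1]; exact H.inv_ne _ hzp
  -- the sum of the three brackets
  have hb : ∑ i, (H.U (H.inv z + v) (H.U z (H.inv (d i))) - H.inv (d i) +
      (H.U (H.inv z + v) z - (H.inv z + v))) ∈ N S P c :=
    Submodule.sum_mem _ fun i _ => line_aux h S (hd i) (hdc i) hz (hzd i) hvz (hvd i)
  rw [Finset.sum_add_distrib, Finset.sum_sub_distrib, ← map_sum, ← map_sum, hsum, map_zero,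
    map_zero, sub_zero, zero_add, Finset.sum_const, Finset.card_univ, Fintype.card_fin] at hb
  have e2 : ∀ x : A, 3 • x = x := by
    intro x
    have : (3 : ℕ) • x = (x + x) + x := by rw [succ_nsmul, two_nsmul]
    rw [this, h2, zero_add]
  rw [e2] at hb
  -- the bracket is `v + U_v z`
  have e3 : H.U (H.inv z + v) z - (H.inv z + v) = v + H.U v z := by
    have hs := U_shift H v (a := H.inv z) (H.inv_ne z hz0)
    rw [H.inv_inv, h2, zero_add, add_comm v (H.inv z)] at hs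
    rw [hs]
    have e4 : H.U v z + H.inv z - (H.inv z + v) = v + H.U v z - (v + v) := by abel
    rw [e4, h2, sub_zero]
  rw [e3] at hb
  -- `v + U_v z = U_v (v⁻¹ + z)`
  have hyz : H.inv v + z ≠ 0 := by
    intro h0
    have e5 : H.inv v = z := by
      have h5 : H.inv v + z - (z + z) = 0 := by rw [h0, h2, sub_zero]
      have h6 : H.inv v + z - (z + z) = H.inv v - z := by abel
      rw [h6] at h5
      exact sub_eq_zero.mp h5
    apply ha
    rw [← e5, H.inv_inv, h2]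
  have e6 : H.U v (H.inv v + z) = v + H.U v z := by rw [map_add, H.U_self]
  rw [← e6] at hb
  have hb0 : H.U v (H.inv v + z) ≠ 0 := fun h0 => hyz (H.U_inj hv0 h0)
  have h7 := pc.symm.inv_notMem hb hb0
  apply h7
  -- `(U_v (v⁻¹ + z))⁻¹ = v⁻¹ + z' `
  have h8 := H.inv_U v (H.inv v + z) hv0
  rw [h8]
  have h10 := H.inv_add (H.inv v) z (H.inv_ne v hv0) hz0 hyz
  rw [H.inv_inv] at h10
  have h11 : H.U (H.inv v) v = H.inv v := by
    have := H.U_self (H.inv v)
    rwa [H.inv_inv] at this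
  rw [h10, map_sub, h11, H.U_inv_left v _ hv0, add_comm v, e1, H.inv_inv]
  exact Submodule.sub_mem _ hyE (Submodule.add_mem _ hzE (le_E h S hc hp))

end Pool.Agent.HuaPerf2
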