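import Mathlib
import Pool.Agent.HuaPP39.Asm
import Pool.Agent.HuaPerf2.Rules95
import Pool.Agent.HuaPerf2.Rule73

/-!
Perfect pairs: balls, an ultrafilter of far away elements, and the limit preorder.
-/

set_option autoImplicit false

open Filter

namespace Pool.Agent.HuaPerf2.Lim35

open Pool.Agent.HuaTop84 Pool.Agent.HuaVal Pool.Agent.HuaOne84 Pool.Agent.HuaDom91
  Pool.Agent.HuaPP39

variable {A : Type} [AddCommGroup A] {K : Type} [Field K] [Module K A] {H : HS A}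

/-- A ball: a proper subspace `B` above `P` which lies in `U_z R` for every `z ∉ B`. -/
def Ball (S : H.Scal K) (P R B : Submodule K A) : Prop :=
  B ≠ ⊤ ∧ P ≤ B ∧ ∀ z, z ∉ B → B ≤ N S R (H.inv z)

section Balls

variable {P R : Submodule K A} (h : Perf H P R) (S : H.Scal K)

include h

theorem ball_self : Ball S P R P := ⟨h.ne_top, le_rfl, fun _ hz => le_s h S hz⟩

theorem ball_s {z : A} (hz : z ∉ P) : Ball S P R (N S R (H.inv z)) :=
  ⟨(h.refl S (ne_of_notMem hz)).ne_top, le_s h S hz, fun _ hy => s_le_s h S hz hy⟩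

theorem ball_sup {B B' : Submodule K A} (hB : Ball S P R B) (hB' : Ball S P R B') :
    ∃ C, Ball S P R C ∧ B ≤ C ∧ B' ≤ C := by
  obtain ⟨z, h1, h2⟩ := exists_notMem_two hB.1 hB'.1
  exact ⟨_, ball_s h S (fun h0 => h1 (hB.2.1 h0)), hB.2.2 z h1, hB'.2.2 z h2⟩

theorem ball_finset (G : Finset A) : ∃ B, Ball S P R B ∧ ∀ g ∈ G, g ∈ B := by
  obtain ⟨B, h1, h2, h3, -, h5⟩ := big h S G
  exact ⟨B, ⟨h1, h2, h5⟩, h3⟩

/-- There is an ultrafilter which avoids every ball. -/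
theorem exists_ultra : ∃ Z : Ultrafilter A, ∀ B, Ball S P R B → ∀ᶠ z in (Z : Filter A), z ∉ B := by
  classical
  obtain ⟨Z, hZ⟩ := Ultrafilter.exists_ultrafilter_of_finite_inter_nonempty
    {X : Set A | ∃ B, Ball S P R B ∧ X = (B : Set A)ᶜ} (by
      intro T hT
      have key : ∀ T : Finset (Set A), (↑T : Set (Set A)) ⊆
          {X : Set A | ∃ B, Ball S P R B ∧ X = (B : Set A)ᶜ} →
          ∃ C, Ball S P R C ∧ ∀ X ∈ T, (C : Set A)ᶜ ⊆ X := by
        intro T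
        induction T using Finset.induction_on with
        | empty => exact fun _ => ⟨P, ball_self h S, by simp⟩
        | insert X T hX ih =>
          intro hT
          obtain ⟨C, hC, hCT⟩ := ih (fun Y hY => hT (by
            rw [Finset.coe_insert]; exact Set.mem_insert_of_mem _ hY))
          obtain ⟨B, hB, hXB⟩ := hT (show X ∈ (↑(insert X T) : Set (Set A)) by simp)
          obtain ⟨D, hD, h1, h2⟩ := ball_sup h S hB hC
          refine ⟨D, hD, fun Y hY => ?_⟩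
          rcases Finset.mem_insert.1 hY with rfl | hY
          · rw [hXB]
            exact Set.compl_subset_compl.2 h1
          · exact (Set.compl_subset_compl.2 h2).trans (hCT Y hY)
      obtain ⟨C, hC, hCT⟩ := key T hT
      obtain ⟨z, hz⟩ : ∃ z, z ∉ C := by
        by_contra hcon
        push Not at hcon
        exact hC.1 (eq_top_iff.2 fun x _ => hcon x)
      exact ⟨z, Set.mem_sInter.2 fun X hX => hCT X hX hz⟩)
  exact ⟨Z, fun B hB => hZ ⟨B, hB, rfl⟩⟩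

end Balls

/-- `Z` avoids every ball. -/
def Far (S : H.Scal K) (P R : Submodule K A) (Z : Ultrafilter A) : Prop :=
  ∀ B, Ball S P R B → ∀ᶠ z in (Z : Filter A), z ∉ B

/-- The disc `U_b (U_z⁻¹ P)`. -/
def Lb (S : H.Scal K) (P : Submodule K A) (b z : A) : Submodule K A :=
  N S (N S P z) (H.inv b)

/-- The dual disc `U_b⁻¹ (U_z R)`. -/
def Lb' (S : H.Scal K) (R : Submodule K A) (b z : A) : Submodule K A :=
  N S (N S R (H.inv z)) b

section Ev

variable {P R : Submodule K A} (h : Perf H P R) (S : H.Scal K) {Z : Ultrafilter A}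
  (hZ : Far S P R Z)

include h hZ

theorem ev_notMem : ∀ᶠ z in (Z : Filter A), z ∉ P := hZ P (ball_self h S)

theorem ev_notMem_s (g : A) : ∀ᶠ z in (Z : Filter A), g ∉ P → z ∉ N S R (H.inv g) := by
  by_cases hg : g ∈ P
  · exact Eventually.of_forall fun z h0 => absurd hg h0
  · filter_upwards [hZ _ (ball_s h S hg)] with z hz _
    exact hz

theorem ev_mem_s (y : A) : ∀ᶠ z in (Z : Filter A), y ∈ N S R (H.inv z) := by
  obtain ⟨B, hB, hy⟩ := ball_finset h S {y}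
  filter_upwards [hZ B hB] with z hz
  exact hB.2.2 z hz (hy y (Finset.mem_singleton_self y))

theorem ev_perf {b : A} (hb : b ≠ 0) :
    ∀ᶠ z in (Z : Filter A), Perf H (Lb S P b z) (Lb' S R b z) := by
  filter_upwards [ev_notMem h S hZ] with z hz
  exact (h.refl S (ne_of_notMem hz)).refl S hb

/-- Regularity: `y ∈ U_x (L_b)'` for large `z`. -/
theorem ev_reg (b x y : A) :
    ∀ᶠ z in (Z : Filter A), y ∈ N S (Lb' S R b z) (H.inv x) := by
  filter_upwards [ev_mem_s h S hZ (H.U b (H.U (H.inv x) y))] with z hz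
  exact hz

theorem ev_notMem_Lb {b x : A} (hb : b ≠ 0) (hx : x ≠ 0) :
    ∀ᶠ z in (Z : Filter A), x ∉ Lb S P b z := by
  filter_upwards [ev_notMem h S hZ, ev_mem_s h S hZ (H.inv (H.U (H.inv b) x))] with z hz h1 h2
  have h3 : H.U (H.inv b) x ≠ 0 := fun h0 => hx (H.U_inj (H.inv_ne b hb) h0)
  have h4 := (h.refl S (ne_of_notMem hz)).inv_notMem h1 (H.inv_ne _ h3)
  rw [H.inv_inv] at h4
  exact h4 h2

theorem ev_Lb_le {b : A} (hb : b ≠ 0) : ∀ᶠ z in (Z : Filter A), Lb S P b z ≤ P := by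
  filter_upwards [ev_notMem h S hZ, ev_notMem_s h S hZ b] with z hz h1
  intro x hx
  have h2 : H.U (H.inv b) x ∈ N S P z := hx
  by_cases hbP : b ∈ P
  · have h3 := h.le_N S hbP hb (h.N_le S hz h2)
    rwa [mem_N, H.U_inv_right b _ hb] at h3
  · have h3 := N_le_N h S hbP (h1 hbP) h2
    rwa [mem_N, H.U_inv_right b _ hb] at h3

theorem ev_add (x : A) : ∀ᶠ z in (Z : Filter A), z + x ∉ P ∧ N S P (z + x) = N S P z := by
  obtain ⟨B, hB, hx⟩ := ball_finset h S {x}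
  have hxB := hx x (Finset.mem_singleton_self x)
  filter_upwards [hZ B hB, ev_notMem h S hZ, ev_notMem_s h S hZ x] with z h1 h2 h3
  refine ⟨fun h0 => h1 ?_, ?_⟩
  · have := B.sub_mem (hB.2.1 h0) hxB
    rwa [add_sub_cancel_right] at this
  · by_cases hxP : x ∈ P
    · exact h.N_add S h2 hxP
    · rw [add_comm]
      exact h.N_add' S h2 (h3 hxP)

theorem ev_add_notMem_Lb {b : A} (hb : b ≠ 0) (x : A) :
    ∀ᶠ z in (Z : Filter A), z + x ∉ Lb S P b z := by
  filter_upwards [ev_add h S hZ x, ev_Lb_le h S hZ hb] with z h1 h2 h3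
  exact h1.1 (h2 h3)

theorem ev_add_notMem_s (x g : A) :
    ∀ᶠ z in (Z : Filter A), g ∉ P → z + x ∉ N S R (H.inv g) := by
  by_cases hg : g ∈ P
  · exact Eventually.of_forall fun z h0 => absurd hg h0
  obtain ⟨B, hB, hx⟩ := ball_finset h S {x}
  obtain ⟨C, hC, h1, h2⟩ := ball_sup h S hB (ball_s h S hg)
  filter_upwards [hZ C hC] with z hz _ h0
  apply hz
  have := C.sub_mem (h2 h0) (h1 (hx x (Finset.mem_singleton_self x)))
  rwa [add_sub_cancel_right] at this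

end Ev

/-- The limit relation `u ≥ c` at `b`. -/
def Rel (S : H.Scal K) (P : Submodule K A) (Z : Ultrafilter A) (b u c : A) : Prop :=
  u ≠ 0 ∧ c ≠ 0 ∧ ∀ᶠ z in (Z : Filter A), N S (Lb S P b z) u ≤ N S (Lb S P b z) c

theorem Rel.refl (S : H.Scal K) (P : Submodule K A) (Z : Ultrafilter A) (b : A) {c : A}
    (hc : c ≠ 0) : Rel S P Z b c c :=
  ⟨hc, hc, Eventually.of_forall fun _ => le_rfl⟩

theorem Rel.trans {S : H.Scal K} {P : Submodule K A} {Z : Ultrafilter A} {b u v w : A}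
    (h1 : Rel S P Z b u v) (h2 : Rel S P Z b v w) : Rel S P Z b u w := by
  refine ⟨h1.1, h2.2.1, ?_⟩
  filter_upwards [h1.2.2, h2.2.2] with z a1 a2
  exact a1.trans a2

/-- Inversion of the limit relation. -/
theorem Rel.scale {S : H.Scal K} {P : Submodule K A} {Z : Ultrafilter A} {b g x : A}
    (hx : x ≠ 0) (h1 : Rel S P Z b g (H.inv x)) : Rel S P Z b (H.U g x) g := by
  refine ⟨fun h0 => hx (H.U_inj h1.1 h0), h1.1, ?_⟩
  filter_upwards [h1.2.2] with z a1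
  exact Pool.Agent.HuaPP39.scale S hx a1

/-- A finite disjunction of eventual statements. -/
theorem ev_or {Z : Ultrafilter A} {p q : A → Prop} (h : ∀ᶠ z in (Z : Filter A), p z ∨ q z) :
    (∀ᶠ z in (Z : Filter A), p z) ∨ ∀ᶠ z in (Z : Filter A), q z :=
  Ultrafilter.eventually_or.1 h

section Three

variable {P R : Submodule K A} (h : Perf H P R) (S : H.Scal K) {Z : Ultrafilter A}
  (hZ : Far S P R Z)

include h hZ

/-- The six point property passes to the limit. -/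
theorem rel_three (h2 : ∀ x : A, x + x = 0) {b : A} (hb : b ≠ 0) {q z1 z2 : A} (n0 : q ≠ 0)
    (n1 : z1 ≠ 0) (n2 : z2 ≠ 0) (n3 : z1 + z2 ≠ 0) (n4 : q + z1 ≠ 0) (n5 : q + z2 ≠ 0)
    (n6 : q + z1 + z2 ≠ 0) :
    Rel S P Z b z1 q ∨ Rel S P Z b z2 q ∨ Rel S P Z b (z1 + z2) q ∨ Rel S P Z b (q + z1) q ∨
      Rel S P Z b (q + z2) q ∨ Rel S P Z b (q + z1 + z2) q := by
  have e1 : z1 + q = q + z1 := add_comm _ _
  have e2 : z2 + q = q + z2 := add_comm _ _
  have e3 : z1 + z2 + q = q + z1 + z2 := by abel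
  have key : ∀ᶠ z in (Z : Filter A),
      N S (Lb S P b z) z1 ≤ N S (Lb S P b z) q ∨
      N S (Lb S P b z) (q + z1) ≤ N S (Lb S P b z) q ∨
      N S (Lb S P b z) z2 ≤ N S (Lb S P b z) q ∨
      N S (Lb S P b z) (q + z2) ≤ N S (Lb S P b z) q ∨
      N S (Lb S P b z) (z1 + z2) ≤ N S (Lb S P b z) q ∨
      N S (Lb S P b z) (q + z1 + z2) ≤ N S (Lb S P b z) q := by
    filter_upwards [ev_perf h S hZ hb, ev_reg h S hZ b q z1, ev_reg h S hZ b z2 z1,
      ev_reg h S hZ b (z2 + q) z1, ev_notMem_Lb h S hZ hb n0, ev_notMem_Lb h S hZ hb n1,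
      ev_notMem_Lb h S hZ hb n2, ev_notMem_Lb h S hZ hb n3, ev_notMem_Lb h S hZ hb n4,
      ev_notMem_Lb h S hZ hb n5, ev_notMem_Lb h S hZ hb n6] with
      z a0 r1 r2 r3 a1 a2 a3 a4 a5 a6 a7
    have k := three_ge a0 S h2 a1 a2 (by rw [e1]; exact a5) a3 (by rw [e2]; exact a6) a4
      (by rw [e3]; exact a7) r1 r2 r3
    rw [e1, e2, e3] at k
    exact k
  rcases ev_or key with k | k
  · exact Or.inl ⟨n1, n0, k⟩
  rcases ev_or k with k | k
  · exact Or.inr (Or.inr (Or.inr (Or.inl ⟨n4, n0, k⟩)))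
  rcases ev_or k with k | k
  · exact Or.inr (Or.inl ⟨n2, n0, k⟩)
  rcases ev_or k with k | k
  · exact Or.inr (Or.inr (Or.inr (Or.inr (Or.inl ⟨n5, n0, k⟩))))
  rcases ev_or k with k | k
  · exact Or.inr (Or.inr (Or.inl ⟨n3, n0, k⟩))
  · exact Or.inr (Or.inr (Or.inr (Or.inr (Or.inr ⟨n6, n0, k⟩))))

/-- The line property passes to the limit. -/
theorem rel_line (h2 : ∀ x : A, x + x = 0) {F : Type} [Field F] (φ : F →+ A)
    (hφ : ∀ u, H.inv (φ u) = φ u⁻¹) (hinj : Function.Injective φ)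
    {b : A} (hb : b ≠ 0) {g : A} {k1 k2 k3 : F} (n1 : k1 ≠ 0) (n2 : k2 ≠ 0) (n3 : k3 ≠ 0)
    (hk : k1⁻¹ + k2⁻¹ + k3⁻¹ = 0) (g1 : Rel S P Z b g (φ k1⁻¹)) (g2 : Rel S P Z b g (φ k2⁻¹))
    (g3 : Rel S P Z b g (φ k3⁻¹)) {z : A} (hz : z ≠ 0) (hz1 : z + H.U g (φ k1) ≠ 0)
    (hz2 : z + H.U g (φ k2) ≠ 0) (hz3 : z + H.U g (φ k3) ≠ 0) :
    Rel S P Z b z g ∨ Rel S P Z b (z + H.U g (φ k1)) g ∨ Rel S P Z b (z + H.U g (φ k2)) g ∨
      Rel S P Z b (z + H.U g (φ k3)) g := by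
  have hg : g ≠ 0 := g1.1
  have e : ∀ k : F, k ≠ 0 → φ k ≠ 0 := fun k hk h0 => hk (hinj (by rw [h0, map_zero]))
  have s : ∀ k : F, k ≠ 0 → Rel S P Z b g (φ k⁻¹) → Rel S P Z b (H.U g (φ k)) g := by
    intro k hk h1
    apply Rel.scale (e k hk)
    rw [hφ]
    exact h1
  have r1 := s k1 n1 g1
  have r2 := s k2 n2 g2
  have r3 := s k3 n3 g3
  have hsum : H.inv (H.U g (φ k1)) + H.inv (H.U g (φ k2)) + H.inv (H.U g (φ k3)) = 0 := by
    rw [H.inv_U _ _ hg, H.inv_U _ _ hg, H.inv_U _ _ hg, hφ, hφ, hφ, ← map_add, ← map_add,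
      ← map_add, ← map_add, hk, map_zero, map_zero]
  have key : ∀ᶠ z' in (Z : Filter A),
      N S (Lb S P b z') z ≤ N S (Lb S P b z') g ∨
      N S (Lb S P b z') (z + H.U g (φ k1)) ≤ N S (Lb S P b z') g ∨
      N S (Lb S P b z') (z + H.U g (φ k2)) ≤ N S (Lb S P b z') g ∨
      N S (Lb S P b z') (z + H.U g (φ k3)) ≤ N S (Lb S P b z') g := by
    filter_upwards [ev_perf h S hZ hb, ev_notMem_Lb h S hZ hb hg, ev_notMem_Lb h S hZ hb r1.1,
      ev_notMem_Lb h S hZ hb r2.1, ev_notMem_Lb h S hZ hb r3.1, ev_notMem_Lb h S hZ hb hz,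
      ev_notMem_Lb h S hZ hb hz1, ev_notMem_Lb h S hZ hb hz2, ev_notMem_Lb h S hZ hb hz3,
      r1.2.2, r2.2.2, r3.2.2] with z' a0 a1 a2 a3 a4 a5 a6 a7 a8 b1 b2 b3
    exact four S h2 a0 a1 a2 a3 a4 hsum b1 b2 b3 a5 a6 a7 a8
  rcases ev_or key with k | k
  · exact Or.inl ⟨hz, hg, k⟩
  rcases ev_or k with k | k
  · exact Or.inr (Or.inl ⟨hz1, hg, k⟩)
  rcases ev_or k with k | k
  · exact Or.inr (Or.inr (Or.inl ⟨hz2, hg, k⟩))
  · exact Or.inr (Or.inr (Or.inr ⟨hz3, hg, k⟩))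

/-- The set of the `x` for which `z + (x + a)` is not above `η` for most `z`. -/
def Bad (S : H.Scal K) (P : Submodule K A) (Z : Ultrafilter A) (b a η : A) : Set A :=
  {x | ¬ ∀ᶠ z in (Z : Filter A), N S (Lb S P b z) (z + (x + a)) ≤ N S (Lb S P b z) η}

/-- No line lies in the bad set. -/
theorem bad_line (h2 : ∀ x : A, x + x = 0) {F : Type} [Field F] (φ : F →+ A)
    (hφ : ∀ u, H.inv (φ u) = φ u⁻¹) (hinj : Function.Injective φ)
    {b : A} (hb : b ≠ 0) {g a η : A} (hgη : Rel S P Z b g η) {k1 k2 k3 : F} (n1 : k1 ≠ 0)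
    (n2 : k2 ≠ 0) (n3 : k3 ≠ 0)
    (hk : k1⁻¹ + k2⁻¹ + k3⁻¹ = 0) (g1 : Rel S P Z b g (φ k1⁻¹)) (g2 : Rel S P Z b g (φ k2⁻¹))
    (g3 : Rel S P Z b g (φ k3⁻¹)) (x : A) :
    ¬ (x ∈ Bad S P Z b a η ∧ x + H.U g (φ k1) ∈ Bad S P Z b a η ∧
      x + H.U g (φ k2) ∈ Bad S P Z b a η ∧ x + H.U g (φ k3) ∈ Bad S P Z b a η) := by
  rintro ⟨x0, x1, x2, x3⟩
  have hg : g ≠ 0 := g1.1
  have e : ∀ k : F, k ≠ 0 → φ k ≠ 0 := fun k hk h0 => hk (hinj (by rw [h0, map_zero]))
  have s : ∀ k : F, k ≠ 0 → Rel S P Z b g (φ k⁻¹) → Rel S P Z b (H.U g (φ k)) g := by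
    intro k hk h1
    apply Rel.scale (e k hk)
    rw [hφ]
    exact h1
  have r1 := s k1 n1 g1
  have r2 := s k2 n2 g2
  have r3 := s k3 n3 g3
  have hsum : H.inv (H.U g (φ k1)) + H.inv (H.U g (φ k2)) + H.inv (H.U g (φ k3)) = 0 := by
    rw [H.inv_U _ _ hg, H.inv_U _ _ hg, H.inv_U _ _ hg, hφ, hφ, hφ, ← map_add, ← map_add,
      ← map_add, ← map_add, hk, map_zero, map_zero]
  have e1 : ∀ z y : A, z + (x + y + a) = z + (x + a) + y := by intro z y; abel
  have key : ∀ᶠ z in (Z : Filter A),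
      N S (Lb S P b z) (z + (x + a)) ≤ N S (Lb S P b z) g ∨
      N S (Lb S P b z) (z + (x + H.U g (φ k1) + a)) ≤ N S (Lb S P b z) g ∨
      N S (Lb S P b z) (z + (x + H.U g (φ k2) + a)) ≤ N S (Lb S P b z) g ∨
      N S (Lb S P b z) (z + (x + H.U g (φ k3) + a)) ≤ N S (Lb S P b z) g := by
    filter_upwards [ev_perf h S hZ hb, ev_notMem_Lb h S hZ hb hg, ev_notMem_Lb h S hZ hb r1.1,
      ev_notMem_Lb h S hZ hb r2.1, ev_notMem_Lb h S hZ hb r3.1,
      ev_add_notMem_Lb h S hZ hb (x + a), ev_add_notMem_Lb h S hZ hb (x + H.U g (φ k1) + a),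
      ev_add_notMem_Lb h S hZ hb (x + H.U g (φ k2) + a),
      ev_add_notMem_Lb h S hZ hb (x + H.U g (φ k3) + a),
      r1.2.2, r2.2.2, r3.2.2] with z a0 a1 a2 a3 a4 a5 a6 a7 a8 b1 b2 b3
    rw [e1] at a6 a7 a8
    rw [e1, e1, e1]
    exact four S h2 a0 a1 a2 a3 a4 hsum b1 b2 b3 a5 a6 a7 a8
  have fin : ∀ y : A, (∀ᶠ z in (Z : Filter A),
      N S (Lb S P b z) (z + (y + a)) ≤ N S (Lb S P b z) g) → y ∉ Bad S P Z b a η := by
    intro y hy hbad
    apply hbad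
    filter_upwards [hy, hgη.2.2] with z c1 c2
    exact c1.trans c2
  rcases ev_or key with k | k
  · exact fin _ k x0
  rcases ev_or k with k | k
  · exact fin _ k x1
  rcases ev_or k with k | k
  · exact fin _ k x2
  · exact fin _ k x3

/-- From the limit to one far away element: if `z + (x + a j)` is above `η j` for most `z`, for
finitely many `j`, then there is an element `u` such that every `u + a j` is far away and satisfies
the domination condition of the defect lemma. -/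
theorem exists_far {ι : Type} [Finite ι] (b a η : ι → A) (x : A)
    (hx : ∀ j, x ∉ Bad S P Z (b j) (a j) (η j)) (G : Finset A) :
    ∃ u, ∀ j, u + a j ∉ P ∧ (∀ g ∈ G, g ∉ P → u + a j ∉ N S R (H.inv g)) ∧
      N S (Lb S P (b j) (u + a j)) (u + a j) ≤ N S (Lb S P (b j) (u + a j)) (η j) := by
  have h1 : ∀ j, ∀ᶠ z in (Z : Filter A),
      N S (Lb S P (b j) z) (z + (x + a j)) ≤ N S (Lb S P (b j) z) (η j) := fun j => by
    have := hx j
    unfold Bad at this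
    rw [Set.mem_setOf_eq, not_not] at this
    exact this
  have h2 : ∀ᶠ z in (Z : Filter A), ∀ j, z + (x + a j) ∉ P ∧
      (∀ g ∈ G, g ∉ P → z + (x + a j) ∉ N S R (H.inv g)) ∧
      N S (Lb S P (b j) (z + (x + a j))) (z + (x + a j)) ≤
        N S (Lb S P (b j) (z + (x + a j))) (η j) := by
    rw [eventually_all]
    intro j
    have h3 : ∀ᶠ z in (Z : Filter A), ∀ g ∈ G, g ∉ P → z + (x + a j) ∉ N S R (H.inv g) := by
      have h4 : ∀ᶠ z in (Z : Filter A), ∀ g ∈ (G : Set A), g ∉ P →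
          z + (x + a j) ∉ N S R (H.inv g) := by
        rw [(Finset.finite_toSet G).eventually_all]
        exact fun g _ => ev_add_notMem_s h S hZ (x + a j) g
      exact h4
    filter_upwards [h1 j, ev_add h S hZ (x + a j), h3] with z c1 c2 c3
    refine ⟨c2.1, c3, ?_⟩
    have e : Lb S P (b j) (z + (x + a j)) = Lb S P (b j) z := by
      unfold Lb
      rw [c2.2]
    rw [e]
    exact c1
  obtain ⟨z, hz⟩ := h2.exists
  refine ⟨z + x, fun j => ?_⟩
  rw [add_assoc]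
  exact hz j

/-- The domination condition in terms of elements. -/
theorem dom_apply {b c η : A} (hle : N S (Lb S P b c) c ≤ N S (Lb S P b c) η) (y : A)
    (hy : H.U c (H.U (H.inv b) (H.U c y)) ∈ P) : H.U c (H.U (H.inv b) (H.U η y)) ∈ P :=
  hle (show y ∈ N S (Lb S P b c) c from hy)

end Three

end Pool.Agent.HuaPerf2.Lim35
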