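import Mathlib
import Pool.Agent.HuaPerf2.Key2
import Pool.Agent.HuaPP39.Gen

/-!
The key identity in characteristic 2 for the unit, and the membership of its terms.
-/

set_option autoImplicit false
set_option maxHeartbeats 1000000

namespace Pool.Agent.HuaPerf2

open Pool.Agent.HuaTop84 Pool.Agent.HuaVal Pool.Agent.HuaOne84 Pool.Agent.HuaDom91
  Pool.Agent.HuaPP39

section ident

variable {A : Type} [AddCommGroup A] {H : HS A} {L : Type} [Field L] {φ : L →+ A} {d : L}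

/-- `U_u` and `U_{u+1}` commute. -/
theorem comm_one (H : HS A) {u : A} (hu : u ≠ 0) (hu1 : u + H.one ≠ 0) (x : A) :
    H.U (u + H.one) (H.U u x) = H.U u (H.U (u + H.one) x) := by
  have h1 : ∀ x, H.U (u + H.one) x = H.U (H.inv u + H.one) (H.U u x) := by
    intro x
    have h := H.sum H.one u x H.one_ne hu (by rwa [add_comm])
    rw [H.inv_one, H.U_one, add_comm H.one u, add_comm H.one] at h
    exact h
  have h2 : ∀ x, H.U (u + H.one) x = H.U u (H.U (H.inv u + H.one) x) := by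
    intro x
    have h := H.sum u H.one x hu H.one_ne hu1
    rw [H.inv_one, H.U_one] at h
    exact h
  rw [h2, ← h1]

/-- The key identity in characteristic two, for the unit. -/
theorem key2_identity (h2 : ∀ x : A, x + x = 0) (hinj : Function.Injective φ)
    (hone : φ 1 = H.one) (hi : ∀ u, H.inv (φ u) = φ u⁻¹)
    (hU : ∀ u v, H.U (φ u) (φ v) = φ (u * u * v)) (h2L : (2 : L) = 0) (hd0 : d ≠ 0)
    (hd1 : 1 + d ≠ 0) {θ : A} (mt : φ ((1 + d) ^ 7) + H.U (φ d) θ ≠ 0)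
    (m2 : θ + φ ((1 + d) ^ 6 * d⁻¹) ≠ 0) (m3 : θ + φ ((1 + d) ^ 7 * d⁻¹) ≠ 0) {κ : A}
    (hκ : κ = H.U (φ (1 + d)) θ + θ + H.U (φ (1 + d)) (H.U θ (H.inv (θ + φ ((1 + d) ^ 6 * d⁻¹)))) +
      H.U θ (H.inv (θ + φ ((1 + d) ^ 7 * d⁻¹)))) (hκ0 : κ ≠ 0) (m1 : κ + φ ((1 + d) ^ 7) ≠ 0) :
    H.U (φ (1 + d)) θ + H.U (φ d) θ + θ + Q H (φ d) (H.U (φ d) θ) (φ (d⁻¹ * d⁻¹)) =
      H.U (φ d) (H.U θ (φ ((1 + d) ^ 6)⁻¹)) +
      H.U κ (H.inv (κ + φ ((1 + d) ^ 7))) +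
      H.U (φ (1 + d)) (H.U θ (H.inv (θ + φ ((1 + d) ^ 6 * d⁻¹)))) +
      H.U θ (H.inv (θ + φ ((1 + d) ^ 7 * d⁻¹))) := by
  have hφ0 : ∀ a : L, a ≠ 0 → φ a ≠ 0 := fun a ha h0 => ha (hinj (by rw [h0, map_zero]))
  set z := 1 + d with hz
  have hzd : z + d = 1 := by
    rw [hz]
    linear_combination d * h2L
  have hz1 : z + 1 = d := by
    rw [hz]
    linear_combination h2L
  set η := H.U (φ d) θ with hη
  have n7 : z ^ 7 ≠ 0 := pow_ne_zero _ hd1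
  have n6 : z ^ 6 ≠ 0 := pow_ne_zero _ hd1
  have huz : φ d + φ z = H.one := by
    rw [← map_add, ← hone]
    congr 1
    rw [add_comm]
    exact hzd
  have hzu : φ z = φ d + H.one := by
    rw [← hone, ← map_add, hz, add_comm]
  have cm : ∀ x, H.U (φ z) (H.U (φ d) x) = H.U (φ d) (H.U (φ z) x) := by
    intro x
    rw [hzu]
    exact comm_one H (hφ0 d hd0) (by rw [← hzu]; exact hφ0 z hd1) x
  -- operators
  have odz : ∀ x, H.U (φ (d * z)) x = H.U (φ d) (H.U (φ z) x) := by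
    have hs : ∀ x, x = H.U (φ d) (H.U (H.inv (φ (d * z))) (H.U (φ z) x)) := by
      intro x
      have h3 := H.sum (φ d) (φ z) x (hφ0 _ hd0) (hφ0 _ hd1) (by rw [huz]; exact H.one_ne)
      have e2 : H.inv (φ d) + H.inv (φ z) = H.inv (φ (d * z)) := by
        rw [hi, hi, hi, ← map_add]
        congr 1
        field_simp
        exact hzd
      rw [huz, H.U_one, e2] at h3
      exact h3
    intro x
    have h3 := hs (H.U (H.inv (φ z)) (H.U (φ (d * z)) x))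
    rw [H.U_inv_right _ _ (hφ0 _ hd1), H.U_inv_left _ _ (hφ0 _ (mul_ne_zero hd0 hd1))] at h3
    rw [← cm, ← h3, H.U_inv_right _ _ (hφ0 _ hd1)]
  have o3 : ∀ a : L, φ (z ^ 6 * a) = H.U (φ z) (H.U (φ z) (H.U (φ z) (φ a))) := by
    intro a
    rw [hU, hU, hU]
    congr 1
    ring
  have oh : ∀ x, H.U (φ (z ^ 7)) x = H.U (φ z) (H.U (φ z) (H.U (φ z) (H.U (φ z)
      (H.U (φ z) (H.U (φ z) (H.U (φ z) x)))))) := by
    intro x
    have e : z ^ 7 = z ^ 6 * z := by ring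
    rw [e, o3, H.U_U, H.U_U, H.U_U]
  have of' : ∀ x, H.U (φ (d * z ^ 7)) x = H.U (φ d) (H.U (φ z) (H.U (φ z) (H.U (φ z)
      (H.U (φ z) (H.U (φ z) (H.U (φ z) (H.U (φ z) x))))))) := by
    intro x
    have e : d * z ^ 7 = z ^ 6 * (d * z) := by ring
    rw [e, o3, H.U_U, H.U_U, H.U_U, odz, cm, cm, cm]
  have og : ∀ x, H.U (φ (d * z ^ 6)) x = H.U (φ d) (H.U (φ z) (H.U (φ z) (H.U (φ z)
      (H.U (φ z) (H.U (φ z) (H.U (φ z) x)))))) := by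
    intro x
    have e : d * z ^ 6 = z ^ 6 * d := by ring
    rw [e, o3, H.U_U, H.U_U, H.U_U, cm, cm, cm]
  have hf0 : φ (d * z ^ 7) ≠ 0 := hφ0 _ (mul_ne_zero hd0 n7)
  have hg0 : φ (d * z ^ 6) ≠ 0 := hφ0 _ (mul_ne_zero hd0 n6)
  have hh0 : φ (z ^ 7) ≠ 0 := hφ0 _ n7
  have hu0 : φ d ≠ 0 := hφ0 _ hd0
  have hz0 : φ z ≠ 0 := hφ0 _ hd1
  have oA1 : ∀ x, H.U (φ (z ^ 7)) (H.U (H.inv (φ (d * z ^ 7))) x) = H.U (H.inv (φ d)) x := by
    intro x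
    have h3 : x = H.U (φ (d * z ^ 7)) (H.U (H.inv (φ (d * z ^ 7))) x) :=
      (H.U_inv_right _ _ hf0).symm
    set y := H.U (H.inv (φ (d * z ^ 7))) x with hy
    rw [h3, of', H.U_inv_left _ _ hu0, oh]
  have oA2 : ∀ x, H.U (φ (z ^ 7)) (H.U (H.inv (φ (d * z ^ 6))) x) =
      H.U (φ z) (H.U (H.inv (φ d)) x) := by
    intro x
    have h3 : x = H.U (φ (d * z ^ 6)) (H.U (H.inv (φ (d * z ^ 6))) x) :=
      (H.U_inv_right _ _ hg0).symm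
    set y := H.U (H.inv (φ (d * z ^ 6))) x with hy
    rw [h3, og, H.U_inv_left _ _ hu0, oh]
  -- the elements
  have hfg : φ (d * z ^ 7) + φ (d * z ^ 6) = φ (d ^ 2 * z ^ 6) := by
    rw [← map_add]
    congr 1
    linear_combination (d * z ^ 6) * hz1
  have hfg0 : φ (d * z ^ 7) + φ (d * z ^ 6) ≠ 0 := by
    rw [hfg]
    exact hφ0 _ (mul_ne_zero (pow_ne_zero _ hd0) n6)
  have ufη : H.U (H.inv (φ d)) (φ (d * z ^ 7) + η) = θ + φ (z ^ 7 * d⁻¹) := by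
    rw [map_add, hη, H.U_inv_left _ _ hu0, hi, hU, add_comm]
    congr 2
    field_simp
  have ugη : H.U (H.inv (φ d)) (φ (d * z ^ 6) + η) = θ + φ (z ^ 6 * d⁻¹) := by
    rw [map_add, hη, H.U_inv_left _ _ hu0, hi, hU, add_comm]
    congr 2
    field_simp
  have mx : φ (d * z ^ 7) + η ≠ 0 := by
    intro h0
    apply m3
    rw [← ufη, h0, map_zero]
  have my : φ (d * z ^ 6) + η ≠ 0 := by
    intro h0
    apply m2
    rw [← ugη, h0, map_zero]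
  obtain ⟨hr0, key⟩ := ident2 H h2 (f := φ (d * z ^ 7)) (g := φ (d * z ^ 6)) (h := φ (z ^ 7))
    (η := η) hf0 hg0 hh0
    (by
      rw [hi, hi, hi, ← map_add, ← map_add]
      have e : (d * z ^ 7)⁻¹ + (d * z ^ 6)⁻¹ + (z ^ 7)⁻¹ = 0 := by
        field_simp
        rw [hz]
        linear_combination (1 + d) * h2L
      rw [e, map_zero]) oA1 oA2 hfg0 mx my mt rfl
  set r := φ (d * z ^ 7) + η + H.U (φ (d * z ^ 7) + η) (H.inv (φ (d * z ^ 7) + φ (d * z ^ 6)))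
    with hr
  -- step 0
  have chain : ∀ n : ℕ, Q H (φ (d * z ^ n)) η (φ (z * (d ^ 2 * z ^ n)⁻¹)) =
      Q H (φ d) η (φ (d⁻¹ * d⁻¹)) := by
    intro n
    induction n with
    | zero =>
      have e : z * (d ^ 2 * z ^ 0)⁻¹ = d⁻¹ * d⁻¹ + d⁻¹ := by
        rw [hz]
        field_simp
      rw [e, map_add, Q_add, pow_zero, mul_one, ← hi, Q_self H h2 η hu0, add_zero]
    | succ n ih =>
      have nz : z ^ n ≠ 0 := pow_ne_zero _ hd1
      have nz1 : z ^ (n + 1) ≠ 0 := pow_ne_zero _ hd1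
      have nc : φ (z * (d ^ 2 * z ^ (n + 1))⁻¹) ≠ 0 :=
        hφ0 _ (mul_ne_zero hd1 (inv_ne_zero (mul_ne_zero (pow_ne_zero _ hd0) nz1)))
      have e1 : φ (d * z ^ (n + 1)) = φ (d * z ^ n) +
          H.inv (φ (z * (d ^ 2 * z ^ (n + 1))⁻¹)) := by
        rw [hi, ← map_add]
        congr 1
        rw [pow_succ]
        field_simp
        rw [← hz]
      rw [e1, Q_shift H h2 _ _ nc]
      have e2 : φ (z * (d ^ 2 * z ^ (n + 1))⁻¹) = φ (z * (d ^ 2 * z ^ n)⁻¹) +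
          H.inv (φ (d * z ^ n)) := by
        rw [hi, ← map_add]
        congr 1
        rw [pow_succ]
        field_simp
        rw [hzd]
        ring
      rw [e2, Q_add, ih, Q_self H h2 η (hφ0 _ (mul_ne_zero hd0 nz)), add_zero]
  have hc7 : H.inv (φ (d * z ^ 7) + φ (d * z ^ 6)) = φ (z * (d ^ 2 * z ^ 7)⁻¹) := by
    rw [hfg, hi]
    congr 1
    field_simp
  have hr1 : r = φ (z ^ 7) + η + H.U (φ d) (H.U θ (φ (z ^ 6)⁻¹)) +
      Q H (φ d) η (φ (d⁻¹ * d⁻¹)) := by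
    rw [hr, hc7, ← chain 7]
    have e1 : H.U (φ (d * z ^ 7) + η) (φ (z * (d ^ 2 * z ^ 7)⁻¹)) =
        Q H (φ (d * z ^ 7)) η (φ (z * (d ^ 2 * z ^ 7)⁻¹)) +
        H.U (φ (d * z ^ 7)) (φ (z * (d ^ 2 * z ^ 7)⁻¹)) +
        H.U η (φ (z * (d ^ 2 * z ^ 7)⁻¹)) := by
      unfold Q
      have e2 : H.U (φ (d * z ^ 7) + η) (φ (z * (d ^ 2 * z ^ 7)⁻¹)) +
        H.U (φ (d * z ^ 7)) (φ (z * (d ^ 2 * z ^ 7)⁻¹)) +
        H.U η (φ (z * (d ^ 2 * z ^ 7)⁻¹)) +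
        H.U (φ (d * z ^ 7)) (φ (z * (d ^ 2 * z ^ 7)⁻¹)) +
        H.U η (φ (z * (d ^ 2 * z ^ 7)⁻¹)) =
        H.U (φ (d * z ^ 7) + η) (φ (z * (d ^ 2 * z ^ 7)⁻¹)) +
        (H.U (φ (d * z ^ 7)) (φ (z * (d ^ 2 * z ^ 7)⁻¹)) +
        H.U (φ (d * z ^ 7)) (φ (z * (d ^ 2 * z ^ 7)⁻¹))) +
        (H.U η (φ (z * (d ^ 2 * z ^ 7)⁻¹)) + H.U η (φ (z * (d ^ 2 * z ^ 7)⁻¹))) := by abel
      rw [e2, h2, h2, add_zero, add_zero]
    have e3 : H.U (φ (d * z ^ 7)) (φ (z * (d ^ 2 * z ^ 7)⁻¹)) = φ (z ^ 8) := by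
      rw [hU]
      congr 1
      field_simp
    have e4 : H.U η (φ (z * (d ^ 2 * z ^ 7)⁻¹)) = H.U (φ d) (H.U θ (φ (z ^ 6)⁻¹)) := by
      rw [hη, H.U_U, hU]
      congr 3
      field_simp
    have e5 : φ (z ^ 7) = φ (d * z ^ 7) + φ (z ^ 8) := by
      rw [← map_add]
      congr 1
      linear_combination (-z ^ 7) * hzd
    rw [e1, e3, e4, e5]
    abel
  -- the terms
  have t1 : H.U (H.inv (φ d)) (H.U η (H.inv (φ (d * z ^ 7) + η))) =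
      H.U θ (H.inv (θ + φ (z ^ 7 * d⁻¹))) := by
    rw [← ufη, H.inv_U _ _ (H.inv_ne _ hu0), H.inv_inv, hη, H.U_U, H.U_inv_left _ _ hu0]
  have t2 : H.U (φ z) (H.U (H.inv (φ d)) (H.U η (H.inv (φ (d * z ^ 6) + η)))) =
      H.U (φ z) (H.U θ (H.inv (θ + φ (z ^ 6 * d⁻¹)))) := by
    rw [← ugη, H.inv_U _ _ (H.inv_ne _ hu0), H.inv_inv, hη, H.U_U, H.U_inv_left _ _ hu0]
  have t3 : H.U (H.inv (φ d)) η = θ := by rw [hη, H.U_inv_left _ _ hu0]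
  rw [t1, t2, t3] at key
  set Y2 := H.U (φ z) (H.U θ (H.inv (θ + φ (z ^ 6 * d⁻¹)))) with hY2
  set Y3 := H.U θ (H.inv (θ + φ (z ^ 7 * d⁻¹))) with hY3
  -- the last term
  set κ' := r + φ (z ^ 7) with hκ'
  set Y1 := H.U κ' (H.inv r) with hY1
  have hκκ : κ = κ' + Y1 := by
    have e1 : κ' = θ + H.U (φ z) θ + Y3 + Y2 + Y1 := by
      have e2 : θ + H.U (φ z) θ + (θ + H.U (φ z) θ + η + (r + (φ (z ^ 7) + η))) =
          θ + H.U (φ z) θ + (Y3 + Y2 + Y1) := by rw [key]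
      have e3 : θ + H.U (φ z) θ + (θ + H.U (φ z) θ + η + (r + (φ (z ^ 7) + η))) =
          κ' + (θ + θ) + (H.U (φ z) θ + H.U (φ z) θ) + (η + η) := by
        rw [hκ']
        abel
      rw [e3] at e2
      simp only [h2, add_zero] at e2
      rw [e2]
      abel
    rw [hκ, e1]
    have e4 : θ + H.U (φ z) θ + Y3 + Y2 + Y1 + Y1 = θ + H.U (φ z) θ + Y3 + Y2 + (Y1 + Y1) := by
      abel
    rw [e4, h2, add_zero]
    abel
  have hκ'0 : κ' ≠ 0 := by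
    intro h0
    apply hκ0
    rw [hκκ, hY1, h0, H.U_zero]
    simp
  have hrκ : r = φ (z ^ 7) + κ' := by
    rw [hκ']
    have e1 : φ (z ^ 7) + (r + φ (z ^ 7)) = r + (φ (z ^ 7) + φ (z ^ 7)) := by abel
    rw [e1, h2, add_zero]
  have e6 : H.inv κ = H.inv (φ (z ^ 7)) + H.inv κ' := by
    have h3 := inv_inv_add H hh0 hκ'0 (by rw [← hrκ]; exact hr0)
    rw [sub2 h2, ← hrκ, ← hY1, ← hκκ] at h3
    rw [← h3, H.inv_inv]
  have e7 : Y1 = H.U κ (H.inv (κ + φ (z ^ 7))) := by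
    have h3 := inv_inv_add H hh0 hκ0 (by rw [add_comm]; exact m1)
    have h4 : H.inv (φ (z ^ 7)) + H.inv κ = H.inv κ' := by
      rw [e6]
      have e8 : H.inv (φ (z ^ 7)) + (H.inv (φ (z ^ 7)) + H.inv κ') =
        (H.inv (φ (z ^ 7)) + H.inv (φ (z ^ 7))) + H.inv κ' := by abel
      rw [e8, h2, zero_add]
    rw [h4, H.inv_inv, sub2 h2, hκκ] at h3
    rw [← hκκ] at h3
    have h5 : κ' + (κ' + Y1) = κ' + (κ + H.U κ (H.inv (φ (z ^ 7) + κ)) + Y1) := by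
      rw [← h3]
    have h6 : Y1 = (κ' + κ') + Y1 := by rw [h2, zero_add]
    have h7 : κ' + κ + Y1 = 0 := by
      rw [hκκ]
      have e9 : κ' + (κ' + Y1) + Y1 = (κ' + κ') + (Y1 + Y1) := by abel
      rw [e9, h2, h2, add_zero]
    have h8 : Y1 + H.U κ (H.inv (φ (z ^ 7) + κ)) = 0 := by
      have e9 : Y1 + H.U κ (H.inv (φ (z ^ 7) + κ)) =
          (κ' + κ + Y1) + (κ' + (κ + H.U κ (H.inv (φ (z ^ 7) + κ)))) + (κ + κ) + (κ' + κ') := by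
        have e10 : (κ' + κ + Y1) + (κ' + (κ + H.U κ (H.inv (φ (z ^ 7) + κ)))) + (κ + κ) +
          (κ' + κ') = (Y1 + H.U κ (H.inv (φ (z ^ 7) + κ))) + (κ + κ) + (κ + κ) + (κ' + κ') +
          (κ' + κ') := by abel
        rw [e10]
        simp only [h2, add_zero]
      rw [e9, h7, ← h3, h2, h2, h2]
      simp
    have h9 := eq_neg_of_add_eq_zero_left h8
    rw [neg2 h2] at h9
    rw [h9, add_comm]
  rw [← e7]
  -- conclusion
  have e10 : r + (φ (z ^ 7) + η) = H.U (φ d) (H.U θ (φ (z ^ 6)⁻¹)) +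
      Q H (φ d) η (φ (d⁻¹ * d⁻¹)) := by
    rw [hr1]
    have e11 : φ (z ^ 7) + η + H.U (φ d) (H.U θ (φ (z ^ 6)⁻¹)) +
      Q H (φ d) η (φ (d⁻¹ * d⁻¹)) + (φ (z ^ 7) + η) =
      H.U (φ d) (H.U θ (φ (z ^ 6)⁻¹)) + Q H (φ d) η (φ (d⁻¹ * d⁻¹)) +
      (φ (z ^ 7) + φ (z ^ 7)) + (η + η) := by abel
    rw [e11]
    simp only [h2, add_zero]
  rw [e10] at key
  set Y0 := H.U (φ d) (H.U θ (φ (z ^ 6)⁻¹)) with hY0
  have e12 : H.U (φ z) θ + η + θ + Q H (φ d) η (φ (d⁻¹ * d⁻¹)) =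
      (θ + H.U (φ z) θ + η + (Y0 + Q H (φ d) η (φ (d⁻¹ * d⁻¹)))) + Y0 := by
    have e13 : (θ + H.U (φ z) θ + η + (Y0 + Q H (φ d) η (φ (d⁻¹ * d⁻¹)))) + Y0 =
      (H.U (φ z) θ + η + θ + Q H (φ d) η (φ (d⁻¹ * d⁻¹))) + (Y0 + Y0) := by abel
    rw [e13, h2, add_zero]
  rw [e12, key]
  abel

end ident

end Pool.Agent.HuaPerf2
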