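import Mathlib
import Pool.Agent.HuaPerf2.Unit2

/-!
The membership of the terms of the key identity in characteristic 2.
-/

set_option autoImplicit false
set_option maxHeartbeats 1000000

namespace Pool.Agent.HuaPerf2

open Pool.Agent.HuaTop84 Pool.Agent.HuaVal Pool.Agent.HuaOne84 Pool.Agent.HuaDom91
  Pool.Agent.HuaPP39

variable {A : Type} [AddCommGroup A] {K : Type} [Field K] [Module K A] {H : HS A}

/-- Inverse powers of a large element of the field are small. -/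
theorem pow_mem {L : Type} [Field L] {φ : L → A} (hone : φ 1 = H.one) (hi : ∀ u, H.inv (φ u) = φ u⁻¹)
    (hU : ∀ u v, H.U (φ u) (φ v) = φ (u * u * v)) (S : H.Scal K)
    {P R : Submodule K A} (h : Perf H P R) {v : L} (hv : φ v ∉ P) (hvR : φ v ∉ R)
    (hv0 : v ≠ 0) : ∀ j : ℕ, φ (v ^ (j + 1))⁻¹ ∈ P ∧ φ (v ^ (j + 1))⁻¹ ∈ R := by
  have step : ∀ a : L, φ a ∈ P ∨ φ a ∈ R → φ ((v * v)⁻¹ * a) ∈ R ∨ φ ((v * v)⁻¹ * a) ∈ P := by
    intro a ha
    have e : H.U (φ v) (φ ((v * v)⁻¹ * a)) = φ a := by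
      rw [hU]
      congr 1
      field_simp
    rcases ha with ha | ha
    · left
      apply h.N_le S hv
      rw [mem_N, e]
      exact ha
    · right
      apply h.symm.N_le S hvR
      rw [mem_N, e]
      exact ha
  have step2 : ∀ a : L, φ a ∈ P ∧ φ a ∈ R →
      φ ((v * v)⁻¹ * a) ∈ P ∧ φ ((v * v)⁻¹ * a) ∈ R := by
    intro a ha
    have e : H.U (φ v) (φ ((v * v)⁻¹ * a)) = φ a := by
      rw [hU]
      congr 1
      field_simp
    constructor
    · apply h.symm.N_le S hvR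
      rw [mem_N, e]
      exact ha.2
    · apply h.N_le S hv
      rw [mem_N, e]
      exact ha.1
  have base0 : φ v⁻¹ ∈ P ∧ φ v⁻¹ ∈ R := by
    rw [← hi]
    exact ⟨h.inv_mem' hvR, h.inv_mem hv⟩
  have base1 : φ (v * v)⁻¹ ∈ P ∧ φ (v * v)⁻¹ ∈ R := by
    have e : H.U (φ v) (φ (v * v)⁻¹) = H.one := by
      rw [hU, ← hone]
      congr 1
      field_simp
    by_cases h1 : H.one ∈ P
    · have hRP : R ≤ P := by
        intro x hx
        have h4 := h.le_N S h1 H.one_ne hx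
        rwa [mem_N, H.U_one] at h4
      have h3 : φ (v * v)⁻¹ ∈ R := by
        apply h.N_le S hv
        rw [mem_N, e]
        exact h1
      exact ⟨hRP h3, h3⟩
    · have h1' : H.one ∈ R := by
        have h4 := h.inv_mem h1
        rwa [H.inv_one] at h4
      have hPR : P ≤ R := by
        intro x hx
        have h4 := h.symm.le_N S h1' H.one_ne hx
        rwa [mem_N, H.U_one] at h4
      have h3 : φ (v * v)⁻¹ ∈ P := by
        apply h.symm.N_le S hvR
        rw [mem_N, e]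
        exact h1'
      exact ⟨h3, hPR h3⟩
  intro j
  induction j using Nat.strong_induction_on with
  | _ j ih =>
    match j with
    | 0 =>
      rw [zero_add, pow_one]
      exact base0
    | 1 =>
      have e : v ^ (1 + 1) = v * v := by ring
      rw [e]
      exact base1
    | (n + 2) =>
      have h3 := step2 _ (ih n (by omega))
      have e : (v ^ (n + 2 + 1))⁻¹ = (v * v)⁻¹ * (v ^ (n + 1))⁻¹ := by
        rw [← mul_inv]
        congr 1
        ring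
      rw [e]
      exact h3

/-- The additivity defect of `U_{u,b}` modulo `P`, for the unit. -/
theorem key_unit2 (S : H.Scal K) (h2 : ∀ x : A, x + x = 0) {P R : Submodule K A}
    (h : Perf H P R) {θ u : A} (hF : InField K H u) (hu : u ∉ P) (hui : H.inv u ∈ P)
    (q0 : H.U u θ ∉ P) (q0' : θ ∉ P → H.U (H.inv θ) (H.U (u + H.one) θ) ∉ R)
    (g0 : ∀ x, H.U u (H.U u x) ∈ P → H.U u (H.U θ x) ∈ P) :
    H.U (u + H.one) θ + H.U u θ + θ + Q H u (H.U u θ) (H.U (H.inv u) H.one) ∈ P := by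
  have hθ0 : θ ≠ 0 := fun h0 => q0 (by rw [h0, map_zero]; exact P.zero_mem)
  obtain ⟨L, _, _, φ, hinj, hone, ⟨d, hd⟩, hi, hU⟩ := hF
  have hu0 : u ≠ 0 := fun h0 => hu (h0 ▸ P.zero_mem)
  have huR : u ∉ R := by
    have h3 := h.inv_notMem hui (H.inv_ne u hu0)
    rwa [H.inv_inv] at h3
  have h2L : (2 : L) = 0 := by
    apply hinj
    rw [map_zero]
    have e : (2 : L) = 1 + 1 := by norm_num
    rw [e, map_add]
    exact h2 _
  have hφ0 : ∀ a : L, a ≠ 0 → φ a ≠ 0 := fun a ha h0 => ha (hinj (by rw [h0, map_zero]))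
  have hd0 : d ≠ 0 := by
    intro h0
    apply hu0
    rw [← hd, h0, map_zero]
  have hzu : φ (1 + d) = u + H.one := by rw [map_add, hone, hd, add_comm]
  have hd1 : 1 + d ≠ 0 := by
    intro h0
    apply hu
    have h3 : u + H.one = 0 := by rw [← hzu, h0, map_zero]
    have h4 : u = H.one := by
      rw [← neg2 h2 H.one]
      exact eq_neg_of_add_eq_zero_left h3
    rw [h4, H.inv_one] at hui
    rw [h4]
    exact hui
  obtain ⟨z, hz⟩ : ∃ z, z = 1 + d := ⟨_, rfl⟩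
  rw [← hz] at hzu hd1
  have hz1 : z + 1 = d := by
    rw [hz]
    linear_combination h2L
  have d4 : d ^ 4 = z ^ 4 + 1 := by
    rw [← hz1]
    linear_combination (2 * z + 3 * z ^ 2 + 2 * z ^ 3) * h2L
  -- the larger one of `P`, `R`
  have hζ : u + H.one ∉ P ∧ u + H.one ∉ R := by
    by_cases h1 : H.one ∈ P
    · have hRP : R ≤ P := by
        intro x hx
        have h4 := h.le_N S h1 H.one_ne hx
        rwa [mem_N, H.U_one] at h4
      have h3 : u + H.one ∉ P := h.add_ne hu h1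
      exact ⟨h3, fun h4 => h3 (hRP h4)⟩
    · have h1' : H.one ∈ R := by
        have h4 := h.inv_mem h1
        rwa [H.inv_one] at h4
      have hPR : P ≤ R := by
        intro x hx
        have h4 := h.symm.le_N S h1' H.one_ne hx
        rwa [mem_N, H.U_one] at h4
      have h3 : u + H.one ∉ R := h.symm.add_ne huR h1'
      exact ⟨fun h4 => h3 (hPR h4), h3⟩
  have hNP : N S P u ≤ P := by
    by_cases h1 : H.one ∈ P
    · have hRP : R ≤ P := by
        intro x hx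
        have h4 := h.le_N S h1 H.one_ne hx
        rwa [mem_N, H.U_one] at h4
      exact (h.N_le S hu).trans hRP
    · have h1' : H.one ∈ R := by
        have h4 := h.inv_mem h1
        rwa [H.inv_one] at h4
      have hPR : P ≤ R := by
        intro x hx
        have h4 := h.symm.le_N S h1' H.one_ne hx
        rwa [mem_N, H.U_one] at h4
      intro x hx
      exact h.symm.N_le S huR (show x ∈ N S R u from hPR hx)
  have hpow := pow_mem (φ := φ) hone hi hU S h (v := z) (by rw [hzu]; exact hζ.1)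
    (by rw [hzu]; exact hζ.2) hd1
  have zP : ∀ j, φ (z ^ (j + 1))⁻¹ ∈ P := fun j => (hpow j).1
  have zR : ∀ j, φ (z ^ (j + 1))⁻¹ ∈ R := fun j => (hpow j).2
  -- the translates of `P`
  have Np : ∀ x, H.U (φ z) x ∈ P ↔ H.U u x ∈ P := by
    have h3 := h.N_add' S (θ := H.one) (y := u) hu (by rw [mem_N, H.inv_one, H.U_one]; exact huR)
    intro x
    rw [hzu, add_comm u, ← mem_N (S := S), h3, mem_N]
  have g0' : ∀ a : L, φ (d ^ 4 * a) ∈ P → H.U u (H.U θ (φ a)) ∈ P := by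
    intro a ha
    apply g0
    rw [← hd, hU, hU]
    have e : d * d * (d * d * a) = d ^ 4 * a := by ring
    rw [e]
    exact ha
  -- the four elements
  have k0 : φ (d ^ 4 * (z ^ 6)⁻¹) ∈ P := by
    have e : d ^ 4 * (z ^ 6)⁻¹ = (z ^ (1 + 1))⁻¹ + (z ^ (5 + 1))⁻¹ := by
      rw [d4]
      field_simp
      ring
    rw [e, map_add]
    exact P.add_mem (zP 1) (zP 5)
  have k1 : φ (d ^ 4 * (z ^ 5)⁻¹) ∈ P := by
    have e : d ^ 4 * (z ^ 5)⁻¹ = (z ^ (0 + 1))⁻¹ + (z ^ (4 + 1))⁻¹ := by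
      rw [d4]
      field_simp
      ring
    rw [e, map_add]
    exact P.add_mem (zP 0) (zP 4)
  have k2 : φ (d ^ 4 * (d * (z ^ 6)⁻¹)) ∈ P := by
    have e : d ^ 4 * (d * (z ^ 6)⁻¹) = (z ^ (0 + 1))⁻¹ + (z ^ (1 + 1))⁻¹ + (z ^ (4 + 1))⁻¹ +
        (z ^ (5 + 1))⁻¹ := by
      rw [d4, ← hz1]
      field_simp
      ring
    rw [e, map_add, map_add, map_add]
    exact P.add_mem (P.add_mem (P.add_mem (zP 0) (zP 1)) (zP 4)) (zP 5)
  have k3 : φ (d ^ 4 * (d * (z ^ 7)⁻¹)) ∈ P := by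
    have e : d ^ 4 * (d * (z ^ 7)⁻¹) = (z ^ (1 + 1))⁻¹ + (z ^ (2 + 1))⁻¹ + (z ^ (5 + 1))⁻¹ +
        (z ^ (6 + 1))⁻¹ := by
      rw [d4, ← hz1]
      field_simp
      ring
    rw [e, map_add, map_add, map_add]
    exact P.add_mem (P.add_mem (P.add_mem (zP 1) (zP 2)) (zP 5)) (zP 6)
  have k4 : φ (d * (z ^ 7)⁻¹) ∈ R := by
    have e : d * (z ^ 7)⁻¹ = (z ^ (5 + 1))⁻¹ + (z ^ (6 + 1))⁻¹ := by
      rw [← hz1]
      field_simp
      ring
    rw [e, map_add]
    exact R.add_mem (zR 5) (zR 6)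
  have n6 : z ^ 6 ≠ 0 := pow_ne_zero _ hd1
  have n7 : z ^ 7 ≠ 0 := pow_ne_zero _ hd1
  have nf2 : z ^ 6 * d⁻¹ ≠ 0 := mul_ne_zero n6 (inv_ne_zero hd0)
  have nf3 : z ^ 7 * d⁻¹ ≠ 0 := mul_ne_zero n7 (inv_ne_zero hd0)
  have if2 : H.inv (φ (z ^ 6 * d⁻¹)) = φ (d * (z ^ 6)⁻¹) := by
    rw [hi]
    congr 1
    field_simp
  have if3 : H.inv (φ (z ^ 7 * d⁻¹)) = φ (d * (z ^ 7)⁻¹) := by
    rw [hi]
    congr 1
    field_simp
  have hz0 : φ z ≠ 0 := hφ0 _ hd1
  have q2 : H.U (φ z) θ ∉ P := by rw [Np]; exact q0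
  -- the terms
  have y0 : H.U u (H.U θ (φ (z ^ 6)⁻¹)) ∈ P := g0' _ k0
  obtain ⟨m2, y2⟩ := h.term_mem hz0 hθ0 (hφ0 _ nf2) q2 (by
    rw [Np, if2]
    exact g0' _ k2)
  obtain ⟨m3, y3⟩ : θ + φ (z ^ 7 * d⁻¹) ≠ 0 ∧ H.U θ (H.inv (θ + φ (z ^ 7 * d⁻¹))) ∈ P := by
    by_cases hθ : θ ∈ P
    · have h3 : φ (z ^ 7 * d⁻¹) ∉ P := by
        intro h4
        apply h.inv_notMem h4 (hφ0 _ nf3)
        rw [if3]
        exact k4
      have h4 : θ + φ (z ^ 7 * d⁻¹) ∉ P := by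
        rw [add_comm]
        exact h.add_ne h3 hθ
      refine ⟨ne_of_notMem h4, ?_⟩
      exact h.le_N S hθ hθ0 (h.inv_mem h4)
    · obtain ⟨m, y⟩ := h.term_mem (w := H.one) H.one_ne hθ0 (hφ0 _ nf3)
        (by rw [H.U_one]; exact hθ)
        (by
          rw [H.U_one, if3]
          exact hNP (show H.U θ (φ (d * (z ^ 7)⁻¹)) ∈ N S P u from g0' _ k3))
      rw [H.U_one] at y
      exact ⟨m, y⟩
  set Y2 := H.U (φ z) (H.U θ (H.inv (θ + φ (z ^ 6 * d⁻¹)))) with hY2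
  set Y3 := H.U θ (H.inv (θ + φ (z ^ 7 * d⁻¹))) with hY3
  set κ := H.U (φ z) θ + θ + Y2 + Y3 with hκ
  have hk0 : θ + H.U (φ z) θ ∉ P := by
    by_cases hθ : θ ∈ P
    · intro h0
      apply q2
      have h3 := P.sub_mem h0 hθ
      rwa [add_sub_cancel_left] at h3
    · intro h0
      apply q0' hθ
      rw [← hzu]
      have h3 : H.U (H.inv θ) (θ + H.U (φ z) θ) ∈ R := by
        rw [← mem_N (S := S)]
        by_cases h5 : θ + H.U (φ z) θ = 0
        · rw [h5]; exact Submodule.zero_mem _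
        rw [(h.refl S hθ0).iff _ h5]
        intro h4
        exact h.inv_notMem h0 h5 (h.N_le S hθ h4)
      have h4 : H.U (H.inv θ) θ ∈ R := by
        have e5 := H.U_self (H.inv θ)
        rw [H.inv_inv] at e5
        rw [e5]
        exact h.inv_mem hθ
      rw [map_add] at h3
      have h5 := R.sub_mem h3 h4
      rwa [add_sub_cancel_left] at h5
  have hY : Y2 + Y3 ∈ P := P.add_mem y2 y3
  have eκ : κ = θ + H.U (φ z) θ + (Y2 + Y3) := by rw [hκ]; abel
  have hkP : κ ∉ P := by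
    rw [eκ]
    exact h.add_ne hk0 hY
  have hNk : N S P κ = N S P (H.U (φ z) θ) := by
    rw [eκ, h.N_add S hk0 hY]
    by_cases hθ : θ ∈ P
    · rw [add_comm]
      exact h.N_add S q2 hθ
    · exact h.N_add' S q2 (by rw [mem_N, hzu]; exact q0' hθ)
  have c5 : H.U κ (H.inv (φ (z ^ 7))) ∈ P := by
    change H.inv (φ (z ^ 7)) ∈ N S P κ
    rw [hNk, mem_N, H.U_U, hi]
    have e : H.U (φ z) (φ (z ^ 7)⁻¹) = φ (z ^ 5)⁻¹ := by
      rw [hU]
      congr 1
      field_simp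
    rw [e, Np]
    exact g0' _ k1
  obtain ⟨m1, y1⟩ := h.last_mem (hφ0 _ n7) hkP c5
  have eq1 : H.U (H.inv u) H.one = φ (d⁻¹ * d⁻¹) := by
    rw [← hd, hi, ← hone, hU, mul_one]
  rw [eq1, ← hzu]
  by_cases mt : φ (z ^ 7) + H.U u θ = 0
  · -- everything is in the field
    have e1 : H.U u θ = φ (z ^ 7) := by
      have h3 := eq_neg_of_add_eq_zero_left mt
      rw [neg2 h2] at h3
      exact h3.symm
    have e2 : θ = φ (d⁻¹ * d⁻¹ * z ^ 7) := by
      rw [← H.U_inv_left u θ hu0, e1, ← hd, hi, hU]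
    have e3 : H.U (φ z) θ + H.U u θ + θ + Q H u (H.U u θ) (φ (d⁻¹ * d⁻¹)) = 0 := by
      rw [e1]
      unfold Q
      rw [← hd, e2, hU, ← map_add φ d, hU, hU, hU, ← map_add, ← map_add, ← map_add, ← map_add,
        ← map_add]
      have e4 : z * z * (d⁻¹ * d⁻¹ * z ^ 7) + z ^ 7 + d⁻¹ * d⁻¹ * z ^ 7 +
          ((d + z ^ 7) * (d + z ^ 7) * (d⁻¹ * d⁻¹) + d * d * (d⁻¹ * d⁻¹) +
            z ^ 7 * z ^ 7 * (d⁻¹ * d⁻¹)) = 0 := by
        rw [← hz1]
        have hz1' : z + 1 ≠ 0 := by rw [hz1]; exact hd0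
        field_simp
        linear_combination (z ^ 7 * (z ^ 2 + z + 1) + (z + 1) ^ 2 + (z + 1) * z ^ 7 + z ^ 14) * h2L
      rw [e4, map_zero]
    rw [e3]
    exact P.zero_mem
  · subst hz
    have key := key2_identity (H := H) (φ := φ.toAddMonoidHom) (d := d) h2 hinj hone hi hU h2L hd0
      hd1 (θ := θ) (by
        change φ ((1 + d) ^ 7) + H.U (φ d) θ ≠ 0
        rw [hd]
        exact mt) m2 m3 (κ := κ) rfl (ne_of_notMem hkP) m1
    change H.U (φ (1 + d)) θ + H.U (φ d) θ + θ + Q H (φ d) (H.U (φ d) θ) (φ (d⁻¹ * d⁻¹)) =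
      H.U (φ d) (H.U θ (φ ((1 + d) ^ 6)⁻¹)) + H.U κ (H.inv (κ + φ ((1 + d) ^ 7))) + Y2 + Y3 at key
    rw [hd] at key
    rw [key]
    exact P.add_mem (P.add_mem (P.add_mem y0 y1) y2) y3

end Pool.Agent.HuaPerf2
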