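import Mathlib
import Pool.Agent.HuaPerf2.Mem2

/-!
The key identity in characteristic 2, for an arbitrary pair of elements.
-/

set_option autoImplicit false

namespace Pool.Agent.HuaPerf2

open Pool.Agent.HuaTop84 Pool.Agent.HuaVal Pool.Agent.HuaOne84 Pool.Agent.HuaDom91
  Pool.Agent.HuaPP39

variable {A : Type} [AddCommGroup A] {K : Type} [Field K] [Module K A] {H : HS A}

/-- The corrected polarisation `U_{a,b} w + U_{a,U_a w} U_a⁻¹ b`; the second term is additive
in `b`. -/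
def E2 (H : HS A) (a w b : A) : A := Q H a b w + Q H a (H.U a w) (H.U (H.inv a) b)

/-- The corrected polarisation lies in `P`, general form. -/
theorem key_gen2 (S : H.Scal K) (h2 : ∀ x : A, x + x = 0) {P R : Submodule K A}
    (h : Perf H P R) {a b w : A} (hb : b ≠ 0) (hw : w ≠ 0)
    (hF : InField K (iso H b hb) a) (ha : a ∉ P) (f1 : b ∉ P → a ∉ N S R (H.inv b))
    (f2 : H.inv w ∉ P → a ∉ N S R w) (f2' : H.inv w ∉ P → a + b ∉ N S R w)
    (f3 : H.U b w ∉ P → a + b ∉ N S R (H.inv (H.U b w)))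
    (g0 : ∀ x, H.U a (H.U (H.inv b) (H.U a x)) ∈ P →
      H.U a (H.U (H.inv b) (H.U (H.U b w) x)) ∈ P) :
    E2 H a w b ∈ P := by
  set θ := H.U b w with hθ
  have hθ0 : θ ≠ 0 := fun h0 => hw (H.U_inj hb h0)
  have S' := iso_scal S hb
  have h' := h.iso S hb
  have e1 : ∀ x, (iso H b hb).U x θ = H.U x w := by
    intro x
    change H.U x (H.U (H.inv b) θ) = _
    rw [hθ, H.U_inv_left b _ hb]
  have key := key_unit2 S' h2 h' (θ := θ) (u := a) hF ha
    (by
      change H.U b (H.inv a) ∈ P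
      exact s_mem_of_far h S hb ha f1)
    (by
      rw [e1]
      exact U_notMem_of_far h S hw ha f2)
    (by
      intro hθP
      rw [e1, mem_N]
      change H.U (H.inv b) (H.U (H.U b (H.inv θ)) (H.U (H.inv b) (H.U (a + b) w))) ∉ R
      rw [H.U_U, H.U_inv_left b _ hb, H.U_inv_right b _ hb, ← mem_N (S := S)]
      have hp := h.refl S hθ0
      refine U_notMem_of_far hp S hw (f3 hθP) ?_
      intro h1
      have h2 : H.inv w ∉ P := fun h0 => h1 (le_s h S hθP h0)
      intro h3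
      apply f2' h2
      have h4 : R ≥ N S P θ := h.N_le S hθP
      rw [mem_N] at h3 ⊢
      exact h4 h3)
    (by
      intro x hx
      change H.U a (H.U (H.inv b) (H.U a (H.U (H.inv b) x))) ∈ P at hx
      exact g0 _ hx)
  rw [e1, e1] at key
  have e2 : Q (iso H b hb) a (H.U a w) ((iso H b hb).U ((iso H b hb).inv a)
      ((iso H b hb).one)) = Q H a (H.U a w) (H.U (H.inv a) b) := by
    change H.U (a + H.U a w) (H.U (H.inv b) (H.U (H.U b (H.inv a)) (H.U (H.inv b) b))) +
      H.U a (H.U (H.inv b) (H.U (H.U b (H.inv a)) (H.U (H.inv b) b))) +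
      H.U (H.U a w) (H.U (H.inv b) (H.U (H.U b (H.inv a)) (H.U (H.inv b) b))) = _
    rw [H.U_U, H.U_inv_left b _ hb, H.U_inv_right b _ hb]
    rfl
  rw [e2] at key
  have e3 : E2 H a w b = H.U (a + (iso H b hb).one) w + H.U a w + θ +
      Q H a (H.U a w) (H.U (H.inv a) b) := by
    rfl
  rw [e3]
  exact key

/-- the third difference in characteristic two -/
def D3 (H : HS A) (x y z w : A) : A :=
  H.U (x + y + z) w + H.U (x + y) w + H.U (x + z) w + H.U (y + z) w + H.U x w + H.U y w +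
    H.U z w

theorem D3_eq (H : HS A) (h2 : ∀ x : A, x + x = 0) (a b b' w : A) :
    D3 H a b b' w = E2 H a w b + E2 H a w b' + E2 H a w (b + b') := by
  unfold D3 E2 Q
  simp only [map_add]
  rw [← sub_eq_zero, sub2 h2]
  have e1 : a + (b + b') = a + b + b' := by abel
  rw [e1]
  set x1 := H.U (a + b + b') w
  set x2 := H.U (a + b) w
  set x3 := H.U (a + b') w
  set x4 := H.U (b + b') w
  set x5 := H.U a w
  set x6 := H.U b w
  set x7 := H.U b' w
  set y1 := H.U (a + x5) (H.U (H.inv a) b)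
  set y2 := H.U (a + x5) (H.U (H.inv a) b')
  set y3 := H.U a (H.U (H.inv a) b)
  set y4 := H.U a (H.U (H.inv a) b')
  set y5 := H.U x5 (H.U (H.inv a) b)
  set y6 := H.U x5 (H.U (H.inv a) b')
  have e2 : x1 + x2 + x3 + x4 + x5 + x6 + x7 + (x2 + x5 + x6 + (y1 + y3 + y5) +
      (x3 + x5 + x7 + (y2 + y4 + y6)) + (x1 + x5 + x4 + (y1 + y2 + (y3 + y4) + (y5 + y6)))) =
      (x1 + x1) + (x2 + x2) + (x3 + x3) + (x4 + x4) + (x5 + x5) + (x5 + x5) + (x6 + x6) +
      (x7 + x7) + (y1 + y1) + (y2 + y2) + (y3 + y3) + (y4 + y4) + (y5 + y5) + (y6 + y6) := by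
    abel
  rw [e2]
  simp only [h2, add_zero]

end Pool.Agent.HuaPerf2
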