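import Mathlib
import Pool.Agent.HuaPerf2.Gen2
import Pool.Agent.HuaPP39.Asm

/-!
Perfect pairs in characteristic two: the third differences vanish, from a domination statement.
-/

set_option autoImplicit false

open Filter

namespace Pool.Agent.HuaPerf2

open Pool.Agent.HuaTop84 Pool.Agent.HuaVal Pool.Agent.HuaOne84 Pool.Agent.HuaDom91
  Pool.Agent.HuaPP39

variable {A : Type} [AddCommGroup A] {K : Type} [Field K] [Module K A] {H : HS A}

/-- The disc `s_b s_z P`. -/
def LL (S : H.Scal K) (P : Submodule K A) (b z : A) : Submodule K A :=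
  N S (N S P z) (H.inv b)

/-- The domination statement for `P` along the filter `F`. -/
def Dominates (S : H.Scal K) (P : Submodule K A) (F : Filter A) : Prop :=
  ∀ (m : ℕ) (e c η : Fin m → A), (∀ j, e j ≠ 0) → (∀ j, η j ≠ 0) →
    ∃ x, ∀ᶠ z in F, ∀ j, N S (LL S P (e j) z) (z + c j + x) ≤ N S (LL S P (e j) z) (η j)

/-- The filter `F` avoids all cosets of perfect subspaces. -/
def Avoids (K : Type) [Field K] [Module K A] (H : HS A) (F : Filter A) : Prop :=
  ∀ D T : Submodule K A, Perf H D T → ∀ g, ∀ᶠ z in F, z + g ∉ D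

/-- Far elements do not change the translate. -/
theorem N_far {S : H.Scal K} {P R : Submodule K A} (h : Perf H P R) {F : Filter A}
    (hZ : Avoids K H F) (g : A) : ∀ᶠ z in F, N S P (z + g) = N S P z := by
  by_cases hg : g ∈ P
  · filter_upwards [hZ P R h 0] with z hz
    rw [add_zero] at hz
    exact h.N_add S hz hg
  · have hg0 := ne_of_notMem hg
    filter_upwards [hZ P R h 0, hZ _ _ (h.refl S hg0) 0] with z hz hz'
    rw [add_zero] at hz hz'
    rw [add_comm]
    exact h.N_add' S hz hz'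

/-- Finitely many corrected polarisations lie in `P`, at a common element. -/
theorem E2_common (S : H.Scal K) (h2 : ∀ x : A, x + x = 0)
    (hFld : ∀ (b : A) (hb : b ≠ 0) (a : A), InField K (iso H b hb) a)
    {P R : Submodule K A} (h : Perf H P R) {F : Filter A} [F.NeBot] (hZ : Avoids K H F)
    (hdom : Dominates S P F) {w : A} (hw : w ≠ 0) {m : ℕ} (e c : Fin m → A)
    (he : ∀ j, e j ≠ 0) : ∃ u, ∀ j, E2 H (u + c j) w (e j) ∈ P := by
  obtain ⟨x, hx⟩ := hdom m e c (fun j => H.U (e j) w) he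
    (fun j h0 => hw (H.U_inj (he j) h0))
  have hiw : H.inv w ≠ 0 := H.inv_ne w hw
  have hPw : Perf H (N S R w) (N S P (H.inv w)) := by
    have h1 := h.refl S hiw
    rwa [H.inv_inv] at h1
  have key : ∀ j, ∀ᶠ z in F, N S (LL S P (e j) z) (z + c j + x) ≤
      N S (LL S P (e j) z) (H.U (e j) w) → E2 H (z + c j + x) w (e j) ∈ P := by
    intro j
    have hη : H.U (e j) w ≠ 0 := fun h0 => hw (H.U_inj (he j) h0)
    filter_upwards [hZ P R h (c j + x), hZ _ _ (h.refl S (he j)) (c j + x), hZ _ _ hPw (c j + x),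
      hZ _ _ hPw (c j + x + e j), hZ _ _ (h.refl S hη) (c j + x + e j),
      N_far (S := S) h hZ (c j + x)] with z h1 h3 h4 h5 h6 h7 hz
    simp only [← add_assoc] at h1 h3 h4 h5 h6 h7
    refine key_gen2 S h2 h (he j) hw (hFld _ (he j) _) h1 (fun _ => h3) (fun _ => h4)
      (fun _ => h5) (fun _ => h6) ?_
    intro y hy
    rw [← mem_N (S := S), h7] at hy ⊢
    exact hz hy
  have key' : ∀ᶠ z in F, ∀ j, N S (LL S P (e j) z) (z + c j + x) ≤
      N S (LL S P (e j) z) (H.U (e j) w) → E2 H (z + c j + x) w (e j) ∈ P :=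
    eventually_all.2 key
  obtain ⟨z, hz1, hz2⟩ := (hx.and key').exists
  refine ⟨z + x, fun j => ?_⟩
  have e1 : z + x + c j = z + c j + x := by abel
  rw [e1]
  exact hz2 j (hz1 j)

theorem E2_zero (h2 : ∀ x : A, x + x = 0) (a w : A) : E2 H a w 0 = 0 := by
  unfold E2 Q
  simp [H.U_zero, h2]

theorem D3_zero (x y v : A) : D3 H x y v 0 = 0 := by
  unfold D3
  simp

/-- The cocycle rule. -/
theorem D3_cocycle (h2 : ∀ x : A, x + x = 0) (a x y v w : A) :
    D3 H x y v w = D3 H (a + v) x y w + D3 H a x y w + D3 H a v (x + y) w + D3 H a v x w +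
      D3 H a v y w := by
  unfold D3
  rw [← sub_eq_zero, sub2 h2]
  have a1 : x + y + v = v + (x + y) := by abel
  have a2 : x + v = v + x := by abel
  have a3 : y + v = v + y := by abel
  have a4 : a + v + x + y = a + v + (x + y) := by abel
  have a5 : a + x + y = a + (x + y) := by abel
  rw [a1, a2, a3, a4, a5]
  generalize H.U (v + (x + y)) w = t1
  generalize H.U (x + y) w = t2
  generalize H.U (v + x) w = t3
  generalize H.U (v + y) w = t4
  generalize H.U x w = t5
  generalize H.U y w = t6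
  generalize H.U v w = t7
  generalize H.U (a + v + (x + y)) w = t8
  generalize H.U (a + v + x) w = t9
  generalize H.U (a + v + y) w = t10
  generalize H.U (a + v) w = t11
  generalize H.U (a + (x + y)) w = t12
  generalize H.U (a + x) w = t13
  generalize H.U (a + y) w = t14
  generalize H.U a w = t15
  have key : t1 + t2 + t3 + t4 + t5 + t6 + t7 +
      (t8 + t9 + t10 + t2 + t11 + t5 + t6 + (t12 + t13 + t14 + t2 + t15 + t5 + t6) +
        (t8 + t11 + t12 + t1 + t15 + t7 + t2) + (t9 + t11 + t13 + t3 + t15 + t7 + t5) +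
        (t10 + t11 + t14 + t4 + t15 + t7 + t6)) =
      (t1 + t1) + (t2 + t2) + (t2 + t2) + (t3 + t3) + (t4 + t4) + (t5 + t5) + (t5 + t5) +
      (t6 + t6) + (t6 + t6) + (t7 + t7) + (t7 + t7) + (t8 + t8) + (t9 + t9) + (t10 + t10) +
      (t11 + t11) + (t11 + t11) + (t12 + t12) + (t13 + t13) + (t14 + t14) + (t15 + t15) +
      (t15 + t15) := by abel
  rw [key]
  simp only [h2, add_zero]

/-- The third differences lie in `P`. -/
theorem D3_mem (S : H.Scal K) (h2 : ∀ x : A, x + x = 0)
    (hFld : ∀ (b : A) (hb : b ≠ 0) (a : A), InField K (iso H b hb) a)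
    {P R : Submodule K A} (h : Perf H P R) {F : Filter A} [F.NeBot] (hZ : Avoids K H F)
    (hdom : Dominates S P F) (x y v w : A) : D3 H x y v w ∈ P := by
  classical
  by_cases hw : w = 0
  · rw [hw, D3_zero]
    exact P.zero_mem
  obtain ⟨u, hu⟩ := E2_common S h2 hFld h hZ hdom hw
    (m := 10) (fun j => if (![x, y, x + y, x, y, x + y, v, v + (x + y), v + x, v + y] : Fin 10 → A) j
      = 0 then H.one else (![x, y, x + y, x, y, x + y, v, v + (x + y), v + x, v + y] : Fin 10 → A) j)
    ![v, v, v, 0, 0, 0, 0, 0, 0, 0]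
    (fun j => by
      split_ifs with hj
      · exact H.one_ne
      · exact hj)
  have hu' : ∀ j, E2 H (u + (![v, v, v, 0, 0, 0, 0, 0, 0, 0] : Fin 10 → A) j) w
      ((![x, y, x + y, x, y, x + y, v, v + (x + y), v + x, v + y] : Fin 10 → A) j) ∈ P := by
    intro j
    have h3 := hu j
    split_ifs at h3 with hj
    · rw [hj, E2_zero h2]
      exact P.zero_mem
    · exact h3
  have q0 : E2 H (u + v) w x ∈ P := hu' 0
  have q1 : E2 H (u + v) w y ∈ P := hu' 1
  have q2 : E2 H (u + v) w (x + y) ∈ P := hu' 2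
  have q3 : E2 H u w x ∈ P := by simpa using hu' 3
  have q4 : E2 H u w y ∈ P := by simpa using hu' 4
  have q5 : E2 H u w (x + y) ∈ P := by simpa using hu' 5
  have q6 : E2 H u w v ∈ P := by simpa using hu' 6
  have q7 : E2 H u w (v + (x + y)) ∈ P := by simpa using hu' 7
  have q8 : E2 H u w (v + x) ∈ P := by simpa using hu' 8
  have q9 : E2 H u w (v + y) ∈ P := by simpa using hu' 9
  rw [D3_cocycle h2 u]
  rw [D3_eq H h2 (u + v) x y, D3_eq H h2 u x y, D3_eq H h2 u v (x + y), D3_eq H h2 u v x,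
    D3_eq H h2 u v y]
  refine P.add_mem (P.add_mem (P.add_mem (P.add_mem ?_ ?_) ?_) ?_) ?_
  · exact P.add_mem (P.add_mem q0 q1) q2
  · exact P.add_mem (P.add_mem q3 q4) q5
  · exact P.add_mem (P.add_mem q6 q5) q7
  · exact P.add_mem (P.add_mem q6 q3) q8
  · exact P.add_mem (P.add_mem q6 q4) q9

/-- An element of all perfect subspaces vanishes. -/
theorem eq_zero_of_mem_all (S : H.Scal K) {P R : Submodule K A} (h : Perf H P R) {n : A}
    (hn : ∀ D T : Submodule K A, Perf H D T → n ∈ D) : n = 0 := by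
  by_contra hn0
  have hR : n ∈ R := hn _ _ h.symm
  have h1 : H.inv n ∉ P := h.symm.inv_notMem hR hn0
  apply h1
  have h3 : n ∈ N S P (H.inv n) := hn _ _ (h.trans S hn0)
  have h4 := H.U_self (H.inv n)
  rw [H.inv_inv] at h4
  rw [mem_N, h4] at h3
  exact h3

/-- The third differences vanish. -/
theorem D3_eq_zero (S : H.Scal K) (h2 : ∀ x : A, x + x = 0)
    (hFld : ∀ (b : A) (hb : b ≠ 0) (a : A), InField K (iso H b hb) a)
    (hdom : ∀ D T : Submodule K A, Perf H D T →
      ∃ F : Filter A, F.NeBot ∧ Avoids K H F ∧ Dominates S D F)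
    {P R : Submodule K A} (h : Perf H P R) (x y v w : A) : D3 H x y v w = 0 := by
  refine eq_zero_of_mem_all S h (fun D T hD => ?_)
  obtain ⟨F, hF, hZ, hd⟩ := hdom D T hD
  exact D3_mem S h2 hFld hD hZ hd x y v w

end Pool.Agent.HuaPerf2
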