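import Mathlib
import Pool.Agent.HuaPerf2.End10
import Pool.Agent.HuaTwoP96.Prime
import Pool.Agent.HuaKey73.Final

/-!
Hua systems of exponent two with a perfect pair, or with a closed pair: the third differences
vanish, from the domination statement.
-/

set_option autoImplicit false

open Filter

namespace Pool.Agent.HuaPerf2

open Pool.Agent.HuaTop84 Pool.Agent.HuaVal Pool.Agent.HuaOne84 Pool.Agent.HuaDom91
  Pool.Agent.HuaPair25 Pool.Agent.HuaKey73

/-- The domination statement for all perfect pairs of exponent two. -/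
def DomAll : Prop :=
  ∀ (A : Type) [AddCommGroup A] [Module (ZMod 2) A] (H : HS A) (S : H.Scal (ZMod 2))
    (D T : Submodule (ZMod 2) A), Perf H D T →
      ∃ F : Filter A, F.NeBot ∧ Avoids (ZMod 2) H F ∧ Dominates S D F

variable {A : Type} [AddCommGroup A] {J : A → A → A}

theorem add_self_of_module [Module (ZMod 2) A] (x : A) : x + x = 0 := by
  rw [← two_smul (ZMod 2) x]
  have h : (2 : ZMod 2) = 0 := rfl
  rw [h, zero_smul]

/-- The third difference vanishes if there is a perfect pair. -/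
theorem T3_zero_two (hdom : DomAll) [Module (ZMod 2) A] (hJ : JSys J) {e : A} (he : e ≠ 0)
    {P R : Submodule (ZMod 2) A} (h : Perf (toHS hJ e he) P R) :
    ∀ e', e' ≠ 0 → ∀ x y z c, T3 J e' x y z c = 0 := by
  intro e' he' x y z c
  have h2 : ∀ a : A, a + a = 0 := add_self_of_module
  have hc : ∀ w, Pool.Agent.HuaVal.H J e' w c = Pool.Agent.HuaVal.H J e w (J e (J e' c)) := by
    intro w
    by_cases hw : w = 0
    · rw [hw, H_zero_left, H_zero_left]
    · rw [H_of_ne hw, H_of_ne hw, hJ.inv e _ he]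
  have S : (toHS hJ e he).Scal (ZMod 2) := Pool.Agent.HuaTwoP96.scal_zmod (toHS hJ e he) 2
  have key := D3_eq_zero S h2
    (fun b hb a => Pool.Agent.HuaTwoP96.exists_field (iso_scal S hb) a)
    (fun D T hD => hdom A (toHS hJ e he) S D T hD) h x y z (J e (J e' c))
  unfold T3
  rw [hc, hc, hc, hc, hc, hc, hc]
  simp only [sub2 h2]
  exact key

theorem ultra_exp2 (hA : ∀ a : A, a + a = 0) : ∀ a : UP A, (2 : ℕ) • a = 0 := by
  intro a
  refine Germ.inductionOn a fun f => ?_
  exact Germ.coe_eq.mpr (Eventually.of_forall fun i => by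
    have h1 := hA (f i)
    rw [← two_nsmul] at h1
    exact h1)

/-- The third differences vanish if there is a closed pair, the unit outside `P`. -/
theorem T3_of_pair_two (hdom : DomAll) (hA : ∀ a : A, a + a = 0) (hJ : JSys J) {e : A}
    (he : e ≠ 0) {P V : AddSubgroup A} (h : CP (toHS hJ e he) P V)
    (h1 : (toHS hJ e he).one ∉ P) {x : A} (hx : x ∉ V) :
    ∀ e', e' ≠ 0 → ∀ x y z c, T3 J e' x y z c = 0 := by
  intro e' he' a b c d
  let _ : Module (ZMod 2) (UP A) := AddCommGroup.zmodModule (ultra_exp2 hA)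
  have hperf : Perf (HU hJ he) (AddSubgroup.toZModSubmodule 2 (Zg hJ he h h1 hx))
      (AddSubgroup.toZModSubmodule 2 (rho (HU hJ he) (Zg hJ he h h1 hx))) := by
    refine ⟨?_, ?_, ?_⟩
    · intro h2
      apply Z_ne_bot hJ he h h1 hx
      rw [eq_bot_iff]
      intro y hy
      have h3 := (AddSubgroup.mem_toZModSubmodule 2).2 hy
      rw [h2, Submodule.mem_bot] at h3
      rw [h3]
      exact AddSubgroup.zero_mem _
    · intro h2
      apply Z_one hJ he h h1 hx
      refine (AddSubgroup.mem_toZModSubmodule 2).1 ?_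
      rw [h2]
      exact Submodule.mem_top
    · intro y hy
      exact Z_perf hJ he h h1 hx hy
  have h2 := T3_zero_two hdom hJ.ultra (dg_ne he) hperf (dg e') (dg_ne he') (dg a) (dg b) (dg c)
    (dg d)
  rw [dg_T3] at h2
  exact dg_inj (h2.trans dg_zero.symm)

/-- The third differences vanish if there is a closed pair of proper subgroups. -/
theorem T3_of_cp_two (hdom : DomAll) (hA : ∀ a : A, a + a = 0) (hJ : JSys J) {e : A}
    (he : e ≠ 0) {P R : AddSubgroup A} (h : CP (toHS hJ e he) P R) (hP : P ≠ ⊤) (hR : R ≠ ⊤) :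
    ∀ e', e' ≠ 0 → ∀ x y z c, T3 J e' x y z c = 0 := by
  have hex : ∀ V : AddSubgroup A, V ≠ ⊤ → ∃ a, a ∉ V := by
    intro V hV
    by_contra hno
    apply hV
    rw [eq_top_iff]
    intro y _
    by_contra hy
    exact hno ⟨y, hy⟩
  obtain ⟨a, ha⟩ := hex P hP
  obtain ⟨x, hx⟩ := hex R hR
  have ha0 : a ≠ 0 := CP.ne_zero ha
  have hcp' := h.iso ha0
  have hx' : (toHS hJ e he).U a x ∉ R.comap ((toHS hJ e he).U ((toHS hJ e he).inv a)) := by
    intro h1
    apply hx
    change (toHS hJ e he).U ((toHS hJ e he).inv a) ((toHS hJ e he).U a x) ∈ R at h1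
    rwa [(toHS hJ e he).U_inv_left a _ ha0] at h1
  exact T3_of_pair_two hdom hA hJ ha0 hcp' ha hx'

/-- The same for a closed pair of proper subgroups of the ultrapower. -/
theorem T3_of_cp_ultra_two (hdom : DomAll) (hA : ∀ a : A, a + a = 0) (hJ : JSys J) {e : A}
    (he : e ≠ 0) {P R : AddSubgroup (UP A)} (h : CP (HU hJ he) P R) (hP : P ≠ ⊤) (hR : R ≠ ⊤) :
    ∀ e', e' ≠ 0 → ∀ x y z c, T3 J e' x y z c = 0 := by
  intro e' he' a b c d
  have hA' : ∀ a : UP A, a + a = 0 := by
    intro a
    have h1 := ultra_exp2 hA a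
    rwa [two_nsmul] at h1
  have h2 := T3_of_cp_two hdom hA' hJ.ultra (dg_ne he) h hP hR (dg e') (dg_ne he')
    (dg a) (dg b) (dg c) (dg d)
  rw [dg_T3] at h2
  exact dg_inj (h2.trans dg_zero.symm)

end Pool.Agent.HuaPerf2
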