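import Mathlib
import Pool.Agent.HuaPerf2.Lim35
import Pool.Agent.HuaPerf2.Main10
import Pool.Agent.HuaPP2_39.Simul

/-!
Perfect pairs of exponent two: the limit relation satisfies the hypotheses of the combinatorial
theorem, and the domination statement.
-/

set_option autoImplicit false

open Filter
open scoped Pointwise

namespace Pool.Agent.HuaPerf2.Lim35

open Pool.Agent.HuaTop84 Pool.Agent.HuaVal Pool.Agent.HuaOne84 Pool.Agent.HuaDom91
  Pool.Agent.HuaPP39 Pool.Agent.HuaPP2_39

variable {A : Type} [AddCommGroup A] {K : Type} [Field K] [Module K A] {H : HS A}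

/-- A perfect subspace has infinite index. -/
theorem index_eq_zero (S : H.Scal K) : ∀ (n : ℕ) (D T : Submodule K A), Perf H D T →
    D.toAddSubgroup.index = n → n = 0 := by
  intro n
  induction n using Nat.strongRec with
  | ind n ih =>
    intro D T hD hn
    by_contra hn0
    obtain ⟨z, hz⟩ : ∃ z, z ∉ D := by
      by_contra hcon
      push Not at hcon
      exact hD.ne_top (eq_top_iff.2 fun x _ => hcon x)
    have h1 := le_s hD S hz
    have h2 := mem_s hD S hz
    have h3 := hD.refl S (ne_of_notMem hz)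
    have hle : D.toAddSubgroup ≤ (N S T (H.inv z)).toAddSubgroup := h1
    have hrel := AddSubgroup.relIndex_mul_index hle
    have hne1 : D.toAddSubgroup.relIndex (N S T (H.inv z)).toAddSubgroup ≠ 1 := by
      intro h0
      rw [AddSubgroup.relIndex_eq_one] at h0
      exact hz (h0 h2)
    rw [hn] at hrel
    have hi0 : (N S T (H.inv z)).toAddSubgroup.index ≠ 0 := by
      intro h0
      rw [h0, mul_zero] at hrel
      exact hn0 hrel.symm
    have hr0 : D.toAddSubgroup.relIndex (N S T (H.inv z)).toAddSubgroup ≠ 0 := by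
      intro h0
      rw [h0, zero_mul] at hrel
      exact hn0 hrel.symm
    have hlt : (N S T (H.inv z)).toAddSubgroup.index < n := by
      rw [← hrel]
      have h4 : 2 ≤ D.toAddSubgroup.relIndex (N S T (H.inv z)).toAddSubgroup := by omega
      have h5 : 0 < (N S T (H.inv z)).toAddSubgroup.index := Nat.pos_of_ne_zero hi0
      nlinarith
    exact hi0 (ih _ hlt _ _ h3 rfl)

/-- There is an ultrafilter which avoids all cosets of all perfect subspaces. -/
theorem exists_avoids (S : H.Scal K) : ∃ F : Ultrafilter A, Avoids K H (F : Filter A) := by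
  classical
  obtain ⟨F, hF⟩ := Ultrafilter.exists_ultrafilter_of_finite_inter_nonempty
    ((fun q : {D : Submodule K A // ∃ T, Perf H D T} × A => {z : A | z + q.2 ∉ q.1.1}) ''
      Set.univ) (by
      intro T hT
      obtain ⟨s, -, hs⟩ := Finset.subset_set_image_iff.1 hT
      rw [← hs]
      by_contra hcon
      rw [Set.not_nonempty_iff_eq_empty] at hcon
      have hcov : ⋃ q ∈ s, (-q.2) +ᵥ ((q.1.1.toAddSubgroup : AddSubgroup A) : Set A) =
          Set.univ := by
        rw [Set.eq_univ_iff_forall]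
        intro z
        have h1 : z ∉ ⋂₀ (↑(Finset.image
            (fun q : {D : Submodule K A // ∃ T, Perf H D T} × A => {z : A | z + q.2 ∉ q.1.1}) s) :
            Set (Set A)) := by
          rw [hcon]
          exact Set.notMem_empty z
        rw [Set.mem_sInter] at h1
        push Not at h1
        obtain ⟨X, hX, hzX⟩ := h1
        rw [Finset.mem_coe, Finset.mem_image] at hX
        obtain ⟨q, hq, hqX⟩ := hX
        rw [← hqX] at hzX
        have h2 : z + q.2 ∈ q.1.1 := by
          by_contra h3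
          exact hzX h3
        rw [Set.mem_iUnion₂]
        refine ⟨q, hq, ?_⟩
        rw [Set.mem_vadd_set]
        refine ⟨z + q.2, h2, ?_⟩
        rw [vadd_eq_add]
        abel
      obtain ⟨q, -, hq⟩ := AddSubgroup.exists_finiteIndex_of_leftCoset_cover hcov
      obtain ⟨T', hT'⟩ := q.1.2
      exact hq.index_ne_zero (index_eq_zero S _ _ _ hT' rfl))
  exact ⟨F, fun D T hD g => hF ⟨(⟨D, T, hD⟩, g), Set.mem_univ _, rfl⟩⟩

/-- An ultrafilter which avoids all cosets of perfect subspaces avoids all balls. -/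
theorem far_of_avoids {S : H.Scal K} {P R : Submodule K A} (h : Perf H P R) {F : Ultrafilter A}
    (hF : Avoids K H (F : Filter A)) : Far S P R F := by
  intro B hB
  obtain ⟨z, hz⟩ : ∃ z, z ∉ B := by
    by_contra hcon
    push Not at hcon
    exact hB.1 (eq_top_iff.2 fun x _ => hcon x)
  have h1 := hB.2.2 z hz
  have hzP : z ∉ P := fun h0 => hz (hB.2.1 h0)
  filter_upwards [hF _ _ (h.refl S (ne_of_notMem hzP)) 0] with y hy h0
  rw [add_zero] at hy
  exact hy (h1 h0)

section Two

variable {L : Type} [Field L] (ψ : L →+ A)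

/-- The maps `k ↦ U_g ψ(k)`. -/
def Yg (H : HS A) (ψ : L →+ A) (g : A) : L →+ A := (H.U g).comp ψ

/-- The limit relation satisfies the hypotheses of the combinatorial theorem. -/
theorem dom_of_avoids {S : H.Scal K} (h2 : ∀ x : A, x + x = 0)
    {P R : Submodule K A} (h : Perf H P R) {F : Ultrafilter A}
    (hF : Avoids K H (F : Filter A)) (hψ : ∀ u, H.inv (ψ u) = ψ u⁻¹)
    (hinj : Function.Injective ψ) {b : A} (hb : b ≠ 0) :
    Dom ψ (Yg H ψ) (Rel S P F b) where
  ne _ _ h1 := ⟨h1.1, h1.2.1⟩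
  refl _ hc := Rel.refl S P F b hc
  trans _ _ _ h1 h3 := h1.trans h3
  three _ _ _ n0 n1 n2 n3 n4 n5 n6 :=
    rel_three h S (far_of_avoids h hF) h2 hb n0 n1 n2 n3 n4 n5 n6
  line _ _ _ _ _ n1 n2 n3 hk g1 g2 g3 hz hz1 hz2 hz3 :=
    rel_line h S (far_of_avoids h hF) h2 ψ hψ hinj hb n1 n2 n3 hk g1 g2 g3 hz hz1 hz2 hz3

/-- Simultaneous domination. -/
theorem dominates_of_avoids [Infinite L] {S : H.Scal K} (h2 : ∀ x : A, x + x = 0)
    {P R : Submodule K A} (h : Perf H P R) {F : Ultrafilter A}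
    (hF : Avoids K H (F : Filter A)) (hψ : ∀ u, H.inv (ψ u) = ψ u⁻¹)
    (hinj : Function.Injective ψ) : Dominates S P (F : Filter A) := by
  intro m e c η he hη
  obtain ⟨x, hx⟩ := simul m (fun j => Rel S P F (e j))
    (fun j => dom_of_avoids ψ h2 h hF hψ hinj (he j)) h2 hinj
    (fun g k hg hk h0 => hk (hinj (by rw [map_zero]; exact H.U_inj hg h0))) η hη
    (fun j => Bad S P F (e j) (c j) (η j)) (by
      intro j g hg k1 k2 k3 z n1 n2 n3 hk g1 g2 g3 b0 b1 b2 b3
      exact bad_line h S (far_of_avoids h hF) h2 ψ hψ hinj (he j) hg n1 n2 n3 hk g1 g2 g3 z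
        ⟨b0, b1, b2, b3⟩)
  refine ⟨x, ?_⟩
  rw [eventually_all]
  intro j
  have h1 := hx j
  unfold Bad at h1
  rw [Set.mem_ofPred_eq, not_not] at h1
  filter_upwards [h1] with z hz
  have e1 : z + c j + x = z + (x + c j) := by abel
  rw [e1]
  exact hz

end Two

/-- A perfect pair gives an infinite field of two points. -/
theorem exists_inf_field (S : H.Scal K) (hfld : ∀ a, InField K H a) {P R : Submodule K A}
    (h : Perf H P R) : ∃ (L : Type) (_ : Field L) (ψ : L →+ A), Infinite L ∧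
      Function.Injective ψ ∧ ∀ u, H.inv (ψ u) = ψ u⁻¹ := by
  obtain ⟨x, hxP, hxR⟩ := exists_notMem_two h.ne_top h.symm.ne_top
  obtain ⟨L, _, _, φ, hinj, hone, ⟨d, hd⟩, hi, hU⟩ := hfld x
  refine ⟨L, inferInstance, φ.toAddMonoidHom, ?_, hinj, hi⟩
  by_contra hfin
  rw [not_infinite_iff_finite] at hfin
  have hx0 : x ≠ 0 := ne_of_notMem hxP
  have hd0 : d ≠ 0 := by
    rintro rfl
    rw [map_zero] at hd
    exact hx0 hd.symm
  have step1 : ∀ u : L, φ u ∈ P → φ (d⁻¹ * d⁻¹ * u) ∈ R := by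
    intro u hu
    have h1 := le_s h S hxP hu
    rw [mem_N, ← hd, hi, hU] at h1
    exact h1
  have step2 : ∀ u : L, φ u ∈ R → φ (d⁻¹ * d⁻¹ * u) ∈ P := by
    intro u hu
    have h1 := le_s h.symm S hxR hu
    rw [mem_N, ← hd, hi, hU] at h1
    exact h1
  have s0 : φ d⁻¹ ∈ R := by
    rw [← hi, hd]
    exact h.inv_mem hxP
  have steps : ∀ k : ℕ, φ (d⁻¹ ^ (4 * k) * (d⁻¹ ^ 3)) ∈ P := by
    intro k
    induction k with
    | zero =>
      have h1 := step2 _ s0
      have e : d⁻¹ ^ (4 * 0) * (d⁻¹ ^ 3) = d⁻¹ * d⁻¹ * d⁻¹ := by ring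
      rw [e]
      exact h1
    | succ k ih =>
      have h1 := step2 _ (step1 _ ih)
      have e : d⁻¹ ^ (4 * (k + 1)) * (d⁻¹ ^ 3) =
          d⁻¹ * d⁻¹ * (d⁻¹ * d⁻¹ * (d⁻¹ ^ (4 * k) * (d⁻¹ ^ 3))) := by ring
      rw [e]
      exact h1
  obtain ⟨n, hn, hdn⟩ := isOfFinOrder_iff_pow_eq_one.1 (isOfFinOrder_of_finite (Units.mk0 d hd0))
  have hdn' : d ^ n = 1 := by
    have := congrArg Units.val hdn
    simpa using this
  have h1 := steps (n - 1)
  apply hxP
  rw [← hd]
  have e : d⁻¹ ^ (4 * (n - 1)) * (d⁻¹ ^ 3) = d := by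
    have e1 : d⁻¹ ^ (4 * (n - 1)) * d⁻¹ ^ 3 * d⁻¹ = 1 := by
      have e2 : d⁻¹ ^ (4 * (n - 1)) * d⁻¹ ^ 3 * d⁻¹ = (d⁻¹ ^ n) ^ 4 := by
        rw [← pow_mul, ← pow_add, ← pow_succ]
        congr 1
        omega
      rw [e2, inv_pow, hdn', inv_one, one_pow]
    rw [mul_inv_eq_one₀ hd0] at e1
    exact e1
  rw [e] at h1
  exact h1

/-- **The domination statement holds for all perfect pairs of exponent two.** -/
theorem domAll : DomAll := by
  intro A _ _ H S D T hD
  have h2 : ∀ x : A, x + x = 0 := add_self_of_module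
  obtain ⟨F, hF⟩ := exists_avoids (H := H) S
  obtain ⟨L, _, ψ, hL, hinj, hψ⟩ := exists_inf_field S
    (fun a => Pool.Agent.HuaTwoP96.exists_field S a) hD
  exact ⟨F, inferInstance, hF, dominates_of_avoids ψ h2 hD hF hψ hinj⟩

end Pool.Agent.HuaPerf2.Lim35
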