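import Mathlib

/-! Folkman type lemma in a field of characteristic two with a multiplicative monoid `M` of
dominators such that among four elements two are compatible. -/

set_option autoImplicit false

namespace Pool.Agent.HuaPerf2.Fold27

open Hindman

universe u
variable {K : Type u} [Field K]

/-- every element of `FS a` is a nonempty finite subsum -/
theorem mem_FS_imp (a : Stream' K) (x : K) (hx : x ∈ FS a) :
    ∃ I : Finset ℕ, I.Nonempty ∧ x = ∑ i ∈ I, a.get i := by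
  induction hx with
  | head' a => exact ⟨{0}, by simp, by simp [Stream'.head]⟩
  | tail' a m _ ih =>
    obtain ⟨I, hI, rfl⟩ := ih
    refine ⟨I.map ⟨Nat.succ, Nat.succ_injective⟩, by simpa using hI, ?_⟩
    rw [Finset.sum_map]
    rfl
  | cons' a m _ ih =>
    obtain ⟨I, hI, rfl⟩ := ih
    refine ⟨insert 0 (I.map ⟨Nat.succ, Nat.succ_injective⟩), by simp, ?_⟩
    rw [Finset.sum_insert (by simp), Finset.sum_map]
    rfl

/-- the group generated by the monoid -/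
def G0 (M : Set K) (h1 : (1:K) ∈ M) (hmul : ∀ x ∈ M, ∀ y ∈ M, x * y ∈ M) (h0 : (0:K) ∉ M) :
    Subgroup Kˣ where
  carrier := {u | ∃ x ∈ M, ∃ y ∈ M, (u : K) = x / y}
  one_mem' := ⟨1, h1, 1, h1, by simp⟩
  mul_mem' := by
    rintro a b ⟨x, hx, y, hy, h⟩ ⟨x', hx', y', hy', h'⟩
    refine ⟨x * x', hmul _ hx _ hx', y * y', hmul _ hy _ hy', ?_⟩
    rw [Units.val_mul, h, h']
    field_simp
  inv_mem' := by
    rintro a ⟨x, hx, y, hy, h⟩
    refine ⟨y, hy, x, hx, ?_⟩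
    rw [Units.val_inv_eq_inv_val, h, inv_div]

theorem mem_G0 {M : Set K} {h1 : (1:K) ∈ M} {hmul : ∀ x ∈ M, ∀ y ∈ M, x * y ∈ M}
    {h0 : (0:K) ∉ M} {u : Kˣ} :
    u ∈ G0 M h1 hmul h0 ↔ ∃ x ∈ M, ∃ y ∈ M, (u : K) = x / y := Iff.rfl

/-- a finite family in the group has a common denominator in the monoid -/
theorem common {ι : Type*} (s : Finset ι) {M : Set K} (h1 : (1:K) ∈ M)
    (hmul : ∀ x ∈ M, ∀ y ∈ M, x * y ∈ M) (h0 : (0:K) ∉ M) (f : ι → K)
    (hf : ∀ i ∈ s, ∃ x ∈ M, ∃ y ∈ M, f i = x / y) :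
    ∃ g ∈ M, ∀ i ∈ s, g * f i ∈ M := by
  classical
  induction s using Finset.induction_on with
  | empty => exact ⟨1, h1, by simp⟩
  | insert i s hi ih =>
    obtain ⟨g, hg, hgs⟩ := ih fun j hj => hf j (Finset.mem_insert_of_mem hj)
    obtain ⟨x, hx, y, hy, h⟩ := hf i (Finset.mem_insert_self i s)
    have hy0 : y ≠ 0 := fun h => h0 (h ▸ hy)
    refine ⟨g * y, hmul _ hg _ hy, fun j hj => ?_⟩
    rcases Finset.mem_insert.1 hj with rfl | hj
    · rw [h]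
      have : g * y * (x / y) = g * x := by field_simp
      rw [this]
      exact hmul _ hg _ hx
    · have : g * y * f j = y * (g * f j) := by ring
      rw [this]
      exact hmul _ hy _ (hgs j hj)

theorem pow_six {M : Set K} (h1 : (1:K) ∈ M) (hmul : ∀ x ∈ M, ∀ y ∈ M, x * y ∈ M)
    (h0 : (0:K) ∉ M)
    (hpig : ∀ κ : Fin 4 → K, (∀ i, κ i ≠ 0) →
      ∃ i j, i ≠ j ∧ ∃ x, x ≠ 0 ∧ x / κ i ∈ M ∧ x / κ j ∈ M) :
    Finite (Kˣ ⧸ G0 M h1 hmul h0) ∧ ∀ u : Kˣ, u ^ 6 ∈ G0 M h1 hmul h0 := by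
  set G := G0 M h1 hmul h0 with hG
  have key : ∀ f : Fin 4 → Kˣ ⧸ G, ¬ Function.Injective f := by
    intro f hf
    choose κ hκ using fun i => QuotientGroup.mk_surjective (f i)
    obtain ⟨i, j, hij, x, hx, hi, hj⟩ := hpig (fun i => (κ i : K)) fun i => (κ i).ne_zero
    apply hij
    apply hf
    rw [← hκ i, ← hκ j, QuotientGroup.eq]
    refine mem_G0.2 ⟨_, hi, _, hj, ?_⟩
    rw [Units.val_mul, Units.val_inv_eq_inv_val]
    have := (κ i).ne_zero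
    have := (κ j).ne_zero
    field_simp
  have hfin : Finite (Kˣ ⧸ G) := by
    by_contra hinf
    rw [not_finite_iff_infinite] at hinf
    refine key (fun i => Infinite.natEmbedding (Kˣ ⧸ G) i) fun i j h => ?_
    exact Fin.ext ((Infinite.natEmbedding (Kˣ ⧸ G)).injective h)
  refine ⟨hfin, fun u => ?_⟩
  have hcard : Nat.card (Kˣ ⧸ G) ≤ 3 := by
    by_contra hlt
    have : Fintype (Kˣ ⧸ G) := Fintype.ofFinite _
    have h4 : Fintype.card (Fin 4) ≤ Fintype.card (Kˣ ⧸ G) := by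
      rw [Fintype.card_fin, ← Nat.card_eq_fintype_card]
      omega
    obtain ⟨f⟩ := Function.Embedding.nonempty_of_card_le h4
    exact key f f.injective
  have hpos : 0 < Nat.card (Kˣ ⧸ G) := Nat.card_pos
  have hdvd : Nat.card (Kˣ ⧸ G) ∣ 6 := by
    interval_cases (Nat.card (Kˣ ⧸ G)) <;> norm_num
  have hq : (QuotientGroup.mk u : Kˣ ⧸ G) ^ 6 = 1 := by
    obtain ⟨m, hm⟩ := hdvd
    rw [hm, pow_mul, pow_card_eq_one', one_pow]
  rw [← QuotientGroup.mk_pow] at hq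
  exact (QuotientGroup.eq_one_iff _).1 hq

/-- seven elements `v ^ 6` with sum zero -/
def ev (t : K) : Fin 7 → K :=
  ![1 ^ 6, t ^ 6, (1 + t) ^ 6, (t ^ 2) ^ 6, (1 + t ^ 2) ^ 6, (t + t ^ 2) ^ 6, (1 + t + t ^ 2) ^ 6]

theorem ev_sum (h2 : (2:K) = 0) (t : K) : ∑ s, ev t s = 0 := by
  have : ∑ s, ev t s = 1 ^ 6 + t ^ 6 + (1 + t) ^ 6 + (t ^ 2) ^ 6 + (1 + t ^ 2) ^ 6 +
      (t + t ^ 2) ^ 6 + (1 + t + t ^ 2) ^ 6 := by
    simp [ev, Fin.sum_univ_succ]
    ring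
  rw [this]
  have e : (1 ^ 6 + t ^ 6 + (1 + t) ^ 6 + (t ^ 2) ^ 6 + (1 + t ^ 2) ^ 6 +
      (t + t ^ 2) ^ 6 + (1 + t + t ^ 2) ^ 6 : K) = 2 * (2 * t ^ 0 + 6 * t ^ 1 + 21 * t ^ 2 + 35 * t ^ 3 + 60 * t ^ 4 + 66 * t ^ 5 + 82 * t ^ 6 + 66 * t ^ 7 + 60 * t ^ 8 + 35 * t ^ 9 + 21 * t ^ 10 + 6 * t ^ 11 + 2 * t ^ 12) := by ring
  rw [e, h2, zero_mul]

theorem ev_pow (t : K) (h0 : t ≠ 0) (h1 : 1 + t ≠ 0) (h3 : 1 + t ^ 2 ≠ 0)
    (h4 : 1 + t + t ^ 2 ≠ 0) (s : Fin 7) : ∃ v : K, v ≠ 0 ∧ ev t s = v ^ 6 := by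
  have h5 : t + t ^ 2 ≠ 0 := by
    have : t + t ^ 2 = t * (1 + t) := by ring
    rw [this]
    exact mul_ne_zero h0 h1
  fin_cases s
  · exact ⟨1, one_ne_zero, rfl⟩
  · exact ⟨t, h0, rfl⟩
  · exact ⟨1 + t, h1, rfl⟩
  · exact ⟨t ^ 2, pow_ne_zero _ h0, rfl⟩
  · exact ⟨1 + t ^ 2, h3, rfl⟩
  · exact ⟨t + t ^ 2, h5, rfl⟩
  · exact ⟨1 + t + t ^ 2, h4, rfl⟩

theorem exists_t [Infinite K] :
    ∃ t : K, t ≠ 0 ∧ 1 + t ≠ 0 ∧ 1 + t ^ 2 ≠ 0 ∧ 1 + t + t ^ 2 ≠ 0 := by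
  classical
  have hp : ∀ p : Polynomial K, p ≠ 0 → ∃ s : Finset K, ∀ x, x ∉ s → p.eval x ≠ 0 := by
    intro p hp
    refine ⟨p.roots.toFinset, fun x hx h => hx ?_⟩
    rw [Multiset.mem_toFinset, Polynomial.mem_roots hp]
    exact h
  set p : Polynomial K := Polynomial.X * (1 + Polynomial.X) * (1 + Polynomial.X ^ 2) *
    (1 + Polynomial.X + Polynomial.X ^ 2) with hpdef
  have hpne : p ≠ 0 := by
    have e1 : (Polynomial.X : Polynomial K) ≠ 0 := Polynomial.X_ne_zero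
    have e2 : (1 + Polynomial.X : Polynomial K) ≠ 0 := by
      intro h
      have := congrArg (fun q => Polynomial.coeff q 1) h
      simp [Polynomial.coeff_one] at this
    have e3 : (1 + Polynomial.X ^ 2 : Polynomial K) ≠ 0 := by
      intro h
      have := congrArg (fun q => Polynomial.coeff q 2) h
      simp [Polynomial.coeff_one] at this
    have e4 : (1 + Polynomial.X + Polynomial.X ^ 2 : Polynomial K) ≠ 0 := by
      intro h
      have := congrArg (fun q => Polynomial.coeff q 2) h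
      simp [Polynomial.coeff_one, Polynomial.coeff_X] at this
    exact mul_ne_zero (mul_ne_zero (mul_ne_zero e1 e2) e3) e4
  obtain ⟨s, hs⟩ := hp p hpne
  obtain ⟨t, ht⟩ := Infinite.exists_notMem_finset s
  have := hs t ht
  rw [hpdef] at this
  simp only [Polynomial.eval_mul, Polynomial.eval_add, Polynomial.eval_one, Polynomial.eval_X,
    Polynomial.eval_pow, mul_ne_zero_iff] at this
  exact ⟨t, this.1.1.1, this.1.1.2, this.1.2, this.2⟩

theorem exists_stream [Infinite K] (h2 : (2:K) = 0) :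
    ∃ a : Stream' K, ∀ x ∈ FS a, x ≠ 0 := by
  classical
  have : CharP K 2 := CharTwo.of_one_ne_zero_of_two_eq_zero one_ne_zero h2
  let _ : Algebra (ZMod 2) K := ZMod.algebra K 2
  have hinf : ¬ Module.Finite (ZMod 2) K := by
    intro h
    have : Finite K := Module.finite_of_finite (ZMod 2)
    exact not_finite K
  let B := Module.Free.chooseBasis (ZMod 2) K
  have hι : Infinite (Module.Free.ChooseBasisIndex (ZMod 2) K) := by
    by_contra h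
    rw [not_infinite_iff_finite] at h
    exact hinf (Module.Finite.of_basis B)
  let a : Stream' K := fun n => B (Infinite.natEmbedding _ n)
  refine ⟨a, fun x hx h0 => ?_⟩
  obtain ⟨I, hI, rfl⟩ := mem_FS_imp a x hx
  have hli : LinearIndependent (ZMod 2) (fun n : ℕ => B (Infinite.natEmbedding _ n)) :=
    B.linearIndependent.comp _ (Infinite.natEmbedding _).injective
  obtain ⟨i, hi⟩ := hI
  have h0' : ∑ n ∈ I, B (Infinite.natEmbedding _ n) = 0 := h0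
  have := (linearIndependent_iff'.1 hli) I (fun _ => 1) (by simpa using h0') i hi
  exact one_ne_zero this

theorem exists_good [Infinite K] (h2 : (2:K) = 0) {M : Set K} (h1 : (1:K) ∈ M)
    (hmul : ∀ x ∈ M, ∀ y ∈ M, x * y ∈ M) (h0 : (0:K) ∉ M)
    (hpig : ∀ κ : Fin 4 → K, (∀ i, κ i ≠ 0) →
      ∃ i j, i ≠ j ∧ ∃ x, x ≠ 0 ∧ x / κ i ∈ M ∧ x / κ j ∈ M) (N : ℕ) :
    ∃ (l : Fin N → K) (e : Fin 7 → K) (g : K), g ≠ 0 ∧ (∀ s, e s ≠ 0) ∧ ∑ s, e s = 0 ∧
      ∀ I : Finset (Fin N), I.Nonempty →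
        ∑ i ∈ I, l i ≠ 0 ∧ ∀ s, g * (∑ i ∈ I, l i) / e s ∈ M := by
  classical
  obtain ⟨hfin, h6⟩ := pow_six h1 hmul h0 hpig
  set G := G0 M h1 hmul h0 with hG
  obtain ⟨t, t0, t1, t3, t4⟩ := exists_t (K := K)
  obtain ⟨a, ha⟩ := exists_stream (K := K) h2
  set S : Kˣ ⧸ G → Set K := fun q => {x | ∃ u : Kˣ, (u : K) = x ∧ (QuotientGroup.mk u : Kˣ ⧸ G) = q}
    with hS
  obtain ⟨c, hc, b, hb⟩ := FS_partition_regular a (Set.range S) (Set.finite_range S) (by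
    intro x hx
    refine Set.mem_sUnion.2 ⟨S (QuotientGroup.mk (Units.mk0 x (ha x hx))), ⟨_, rfl⟩, ?_⟩
    exact ⟨Units.mk0 x (ha x hx), rfl, rfl⟩)
  obtain ⟨q, rfl⟩ := hc
  set l : Fin N → K := fun i => b.get i with hl
  have hlI : ∀ I : Finset (Fin N), I.Nonempty → (∑ i ∈ I, l i) ∈ S q := by
    intro I hI
    apply hb
    have h := FS.finsetSum b (I.map Fin.valEmbedding) (by simpa using hI)
    rw [Finset.sum_map] at h
    exact h
  obtain ⟨w0, hw0⟩ := QuotientGroup.mk_surjective q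
  have hfam : ∀ p ∈ ((Finset.univ : Finset (Finset (Fin N))).filter (fun I => I.Nonempty)) ×ˢ
      (Finset.univ : Finset (Fin 7)),
      ∃ x ∈ M, ∃ y ∈ M, (∑ i ∈ p.1, l i) / ((w0 : K) * ev t p.2) = x / y := by
    rintro ⟨I, s⟩ hp
    rw [Finset.mem_product, Finset.mem_filter] at hp
    obtain ⟨u, hu, huq⟩ := hlI I hp.1.2
    obtain ⟨v, hv, hvs⟩ := ev_pow t t0 t1 t3 t4 s
    have hmem : (w0 ⁻¹ * u) * ((Units.mk0 v hv) ^ 6)⁻¹ ∈ G := by
      refine G.mul_mem ?_ (G.inv_mem (h6 _))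
      rw [← QuotientGroup.eq, hw0, huq]
    obtain ⟨x, hx, y, hy, h⟩ := mem_G0.1 hmem
    refine ⟨x, hx, y, hy, ?_⟩
    rw [← h, ← hu, hvs]
    simp only [Units.val_mul, Units.val_inv_eq_inv_val, Units.val_pow_eq_pow_val, Units.val_mk0]
    have := w0.ne_zero
    field_simp
  obtain ⟨g, hg, hgs⟩ := common _ h1 hmul h0 _ hfam
  have hg0 : g ≠ 0 := fun h => h0 (h ▸ hg)
  refine ⟨l, ev t, g / w0, div_ne_zero hg0 w0.ne_zero, fun s => ?_, ev_sum h2 t, fun I hI => ⟨?_, fun s => ?_⟩⟩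
  · obtain ⟨v, hv, hvs⟩ := ev_pow t t0 t1 t3 t4 s
    rw [hvs]
    exact pow_ne_zero _ hv
  · obtain ⟨u, hu, _⟩ := hlI I hI
    rw [← hu]
    exact u.ne_zero
  · have := hgs (I, s) (Finset.mem_product.2 ⟨Finset.mem_filter.2 ⟨Finset.mem_univ _, hI⟩,
      Finset.mem_univ _⟩)
    convert this using 1
    have := w0.ne_zero
    field_simp

end Pool.Agent.HuaPerf2.Fold27
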